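import Mathlib
import Pool.Agent.TH131.GHC.RDefs
import Pool.Agent.TH504.VL.Defs

/-!
# Products of families of abelian varieties and varieties: definitions

A family `Z` of period matrices over `U` gives the principally polarized abelian varieties with the
rational homology `ℚ ^ g ⊕ ℚ ^ g` and the inclusion `perOne (Z t)`, `(a, b) ↦ a + Z(t) b`, of the
homology in the tangent space.

A family `A` of complex tori over `B` is given by the inclusions `per b : W → T` of the rational
homology `W` in the tangent space, for `b` in `B`; a family `Y` of smooth projective varieties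
over `B` is given by the Hodge structures `Y b` on its rational cohomology `ℚ ^ v`. The
cohomology of `A_b × Y_b` is `HAZ W v`.
-/

set_option autoImplicit false

namespace Pool.Agent.TH504.VY

open Matrix Module Pool.Agent.H204R3.CM Pool.Agent.H194R3.CM Pool.Agent.W437.HD
  Pool.Agent.W437.HP Pool.Agent.TH131.GHC
  Pool.Agent.TH504.VL

noncomputable section

section families

variable {g d : ℕ}

/-- `γ` is a monodromy operator of the family `Z` over `U`: a rational symplectic matrix which maps
the homology of each member `t` to the homology of another member `t'` and comes from a complex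
linear map `C` of the tangent spaces. -/
def IsMonodromy (U : Set (Fin d → ℂ)) (Z : (Fin d → ℂ) → Matrix (Fin g) (Fin g) ℂ)
    (γ : Matrix (Fin g ⊕ Fin g) (Fin g ⊕ Fin g) ℚ) : Prop :=
  γ.transpose * fromBlocks 0 1 (-1) 0 * γ = fromBlocks 0 1 (-1) 0 ∧
    ∀ t ∈ U, ∃ t' ∈ U, ∃ C : Matrix (Fin g) (Fin g) ℂ,
      ∀ w, perOne (Z t') (γ.mulVec w) = C.mulVec (perOne (Z t) w)

/-- `r` is the rank of `γ - 1` for a monodromy operator with `(γ - 1) ^ 2 = 0`, or of a derivative
of the period matrix at a point, or of the difference of two period matrices. -/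
def IsFamilyRank (U : Set (Fin d → ℂ)) (Z : (Fin d → ℂ) → Matrix (Fin g) (Fin g) ℂ) (r : ℕ) :
    Prop :=
  (∃ γ, IsMonodromy U Z γ ∧ (γ - 1) * (γ - 1) = 0 ∧ (γ - 1).rank = r) ∨
    (∃ s ∈ U, ∃ u, (ksMap Z s u).rank = r) ∨
    ∃ s ∈ U, ∃ t ∈ U, (Z s - Z t).rank = r

/-- `Z` is a holomorphic family of period matrices over `U` with a simple member, and one of its
ranks is odd, or the centre of the endomorphism algebra of the family is totally real and
one of its ranks is two or at some point the rank of the Kodaira-Spencer map is more than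
`(g - 1) ^ 2 / 8`. -/
def IsMovingFamily (U : Set (Fin d → ℂ)) (Z : (Fin d → ℂ) → Matrix (Fin g) (Fin g) ℂ) : Prop :=
  (∀ i j, AnalyticOnNhd ℂ (fun t => Z t i j) U) ∧
  (∀ t ∈ U, (Z t).transpose = Z t ∧ ((Z t).map Complex.im).PosDef) ∧
  (∃ s ∈ U, IsSimpleAV (Z s)) ∧
  ((∃ r, IsFamilyRank U Z r ∧ Odd r) ∨
    (HasRealCentre U Z ∧ (IsFamilyRank U Z 2 ∨
      ∃ s ∈ U, (g - 1) ^ 2 < 8 * finrank ℂ (LinearMap.range (ksMap Z s)))))

end families

/-- The span of the products `C 0 ∧ ... ∧ C (r - 1)`, of degree `k = 2 r`, of Hodge classes of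
degree two (divisor classes) on a complex torus. -/
def divisorSpan {W T : Type} [AddCommGroup W] [Module ℚ W] [AddCommGroup T] [Module ℂ T]
    (per : W →+ T) (k : ℕ) : Submodule ℚ (W [⋀^Fin k]→ₗ[ℚ] ℚ) :=
  Submodule.span ℚ {f | ∃ (r : ℕ) (e : Fin r × Fin 2 ≃ Fin k) (C : Fin r → W [⋀^Fin 2]→ₗ[ℚ] ℚ),
    (∀ l, IsHodge per (C l)) ∧
    ∀ w, f w = ∑ σ : Equiv.Perm (Fin k), (Equiv.Perm.sign σ : ℤ) *
      ∏ l, C l ![w (σ (e (l, 0))), w (σ (e (l, 1)))]}

/-- The class `x` is a Hodge class on the variety: it is killed by the Hodge operator. -/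
def IsHodgeOn {v : ℕ} (V : Coh v) (x : Fin v → ℚ) : Prop := V.z *ᵥ cv x = 0

/-- The class `F` is a Hodge class on the product of the complex torus and the variety. -/
def IsHodgeOnProduct {W T : Type} [AddCommGroup W] [Module ℚ W] [AddCommGroup T] [Module ℂ T]
    {v : ℕ} (per : W →+ T) (V : Coh v) (F : HAZ W v) : Prop :=
  ∃ Φ : HAZC T v, Extends per F Φ ∧ HasType V 0 Φ

/-- The integral of `F ∧ β` over the complex torus, for a class `F` on the product of the complex
torus and a variety and a class `β` of degree `j` on the complex torus of real dimension `k + j`: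
the value of the wedge product on a basis `e` of the homology (up to a factor which depends on
`e`, `k` and `j`). This is a class on the variety. -/
def fibreIntegral {W : Type} [AddCommGroup W] [Module ℚ W] {v k j : ℕ}
    (e : Basis (Fin k ⊕ Fin j) ℚ W) (F : HAZ W v) (β : W [⋀^Fin j]→ₗ[ℚ] ℚ) : Fin v → ℚ :=
  ∑ σ : Equiv.Perm (Fin k ⊕ Fin j), (Equiv.Perm.sign σ : ℤ) •
    (β (fun l => e (σ (Sum.inr l))) • F k (fun l => e (σ (Sum.inl l))))

section cycles

variable {B W T : Type} [AddCommGroup W] [Module ℚ W] [AddCommGroup T] [Module ℂ T]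

/-- The exterior product of a product of divisor classes on `A_b` and an algebraic class on `Y_b` is
algebraic on `A_b × Y_b`. -/
def CrossClosed (per : B → W →+ T) {v : ℕ} (alg : B → Submodule ℚ (HAZ W v))
    (algY : B → Submodule ℚ (Fin v → ℚ)) : Prop :=
  ∀ (b : B) (k : ℕ), ∀ f ∈ divisorSpan (per b) k, ∀ x ∈ algY b, cross f x ∈ alg b

/-- The direct image on `Y_b` of the intersection of an algebraic class on `A_b × Y_b` with a product
of divisor classes on `A_b` is algebraic. -/
def IntegralClosed (per : B → W →+ T) {v : ℕ} (alg : B → Submodule ℚ (HAZ W v))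
    (algY : B → Submodule ℚ (Fin v → ℚ)) : Prop :=
  ∀ b : B, ∀ F ∈ alg b, ∀ (k j : ℕ) (e : Basis (Fin k ⊕ Fin j) ℚ W),
    ∀ β ∈ divisorSpan (per b) j, fibreIntegral e F β ∈ algY b

/-- The spans `alg b` of the classes of algebraic cycles on the products `A_b × Y_b` and `algY b` of
the classes of algebraic cycles on `Y_b`, with two of their properties. -/
structure CycleSystem (per : B → W →+ T) (v : ℕ) where
  /-- the algebraic classes on `A_b × Y_b` -/
  alg : B → Submodule ℚ (HAZ W v)
  /-- the algebraic classes on `Y_b` -/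
  algY : B → Submodule ℚ (Fin v → ℚ)
  cross_mem : CrossClosed per alg algY
  integral_mem : IntegralClosed per alg algY

/-- The span of the products `f ⊗ x` of classes `f` and `x` such that `f` is a combination of
products of divisor classes on all `A_b` and `x` is a Hodge class on all `Y_b`. -/
def productClasses (per : B → W →+ T) {v : ℕ} (Y : B → Coh v) : Submodule ℚ (HAZ W v) :=
  Submodule.span ℚ {G | ∃ (k : ℕ) (f : W [⋀^Fin k]→ₗ[ℚ] ℚ) (x : Fin v → ℚ),
    (∀ b, f ∈ divisorSpan (per b) k) ∧ (∀ b, IsHodgeOn (Y b) x) ∧ G = cross f x}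

/-- Each flat class which is a Hodge class on all `A_b × Y_b` is a sum of products of classes
`f ⊗ x` as in `productClasses`. -/
def HodgeClassesAreProducts (per : B → W →+ T) {v : ℕ} (Y : B → Coh v) : Prop :=
  ∀ F, (∀ b, IsHodgeOnProduct (per b) (Y b) F) → F ∈ productClasses per Y

/-- The variational Hodge conjecture for a family: a flat class `x` which is a Hodge class on all
members `b` of the family and is algebraic on one member is algebraic on all members. -/
def Variational {M : Type} [AddCommGroup M] [Module ℚ M] (hodge : B → M → Prop)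
    (alg : B → Submodule ℚ M) : Prop :=
  ∀ x, (∀ b, hodge b x) → ∀ b₀, x ∈ alg b₀ → ∀ b, x ∈ alg b

/-- The variational Hodge conjecture for the family `Y` implies the variational Hodge conjecture for
the family of the products `A_b × Y_b`. -/
def VariationalFromY (per : B → W →+ T) {v : ℕ} (Y : B → Coh v) : Prop :=
  ∀ C : CycleSystem per v, Variational (fun b => IsHodgeOn (Y b)) C.algY →
    Variational (fun b => IsHodgeOnProduct (per b) (Y b)) C.alg

end cycles

/-- The fibre product over `B` of the families with the period matrices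
`Z (c 0), ..., Z (c (n - 1))`. -/
def fibreProduct {ι B : Type} {g : ι → ℕ} (Z : ∀ i, B → Matrix (Fin (g i)) (Fin (g i)) ℂ) {n : ℕ}
    (c : Fin n → ι) (b : B) :
    (∀ j, Fin (g (c j)) ⊕ Fin (g (c j)) → ℚ) →+ (∀ j, Fin (g (c j)) → ℂ) :=
  perFam (fun i => Z i b) c

/-- Through each point `b` of `B` there is a connected complex manifold (an open set `U` of a space
`ℂ ^ d`, mapped to `B`) along which the Hodge structure of the family `Y` is constant and all the
families `Z i` are moving. -/
def MovesRelative {ι B : Type} {g : ι → ℕ} {v : ℕ}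
    (Z : ∀ i, B → Matrix (Fin (g i)) (Fin (g i)) ℂ) (Y : B → Coh v) : Prop :=
  ∀ b, ∃ (d : ℕ) (U : Set (Fin d → ℂ)) (φ : (Fin d → ℂ) → B), IsOpen U ∧ IsPreconnected U ∧
    b ∈ φ '' U ∧ (∀ t ∈ U, (Y (φ t)).z = (Y b).z) ∧ ∀ i, IsMovingFamily U (fun t => Z i (φ t))

end

end Pool.Agent.TH504.VY
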