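import Mathlib
import Pool.Agent.TH131.GHC.Pos
import Pool.Agent.TH504.VY.Pair

/-!
# Contractions of the volume form
-/

set_option linter.unusedSectionVars false

namespace Pool.Agent.TH504.VY

open Matrix Equiv Module Pool.Agent.H204R3.SP Pool.Agent.W437.HC Pool.Agent.W437.HP
  Pool.Agent.TH131.GHC

noncomputable section

variable {W : Type*} [AddCommGroup W] [Module ℚ W] {B : Type*} [Fintype B] [DecidableEq B]
  (E : B → W)

/-- The coordinates of a form. -/
def cfE {κ : Type*} (f : W [⋀^κ]→ₗ[ℚ] ℚ) : (κ → B) → ℚ := fun I => f (fun l => E (I l))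

section top

variable {κ : Type*} [Fintype κ] [DecidableEq κ] {D : Matrix B B ℂ}

/-- Forms of top degree are killed by matrices of trace zero. -/
theorem act_top (hcard : Fintype.card κ = Fintype.card B) (htr : trace D = 0)
    (ω : W [⋀^κ]→ₗ[ℚ] ℚ) : act D (cst ℂ (cfE E ω)) = 0 := by
  have hz : ∀ (K : κ → B) (a b : κ), a ≠ b → K a = K b → cst ℂ (cfE E ω) K = 0 := by
    intro K a b hab h
    rw [cst_apply, cfE, ω.map_eq_zero_of_eq (fun l => E (K l)) (i := a) (j := b)
      (by rw [h]) hab, Rat.cast_zero]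
  funext K
  by_cases hK : Function.Injective K
  · have hb : Function.Bijective K := (Fintype.bijective_iff_injective_and_card K).2 ⟨hK, hcard⟩
    have h1 : ∀ l, ∑ j, D j (K l) * cst ℂ (cfE E ω) (Function.update K l j) =
        D (K l) (K l) * cst ℂ (cfE E ω) K := by
      intro l
      rw [Finset.sum_eq_single (K l)]
      · rw [Function.update_eq_self]
      · intro b _ hbl
        obtain ⟨l', rfl⟩ := hb.2 b
        have hll : l' ≠ l := fun h => hbl (by rw [h])
        rw [hz _ l l' hll.symm (by rw [Function.update_self, Function.update_of_ne hll]), mul_zero]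
      · intro h
        exact absurd (Finset.mem_univ _) h
    change ∑ l, ∑ j, D j (K l) * cst ℂ (cfE E ω) (Function.update K l j) = 0
    rw [Finset.sum_congr rfl (fun l _ => h1 l), ← Finset.sum_mul]
    have h2 : ∑ l, D (K l) (K l) = trace D := by
      unfold trace
      exact Fintype.sum_bijective K hb _ _ fun l => rfl
    rw [h2, htr, zero_mul]
  · rw [Function.Injective] at hK
    push Not at hK
    obtain ⟨a, b, hab, hne⟩ := hK
    change ∑ l, ∑ j, D j (K l) * cst ℂ (cfE E ω) (Function.update K l j) = 0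
    have h1 : ∀ l, l ≠ a → l ≠ b →
        ∑ j, D j (K l) * cst ℂ (cfE E ω) (Function.update K l j) = 0 := by
      intro l hla hlb
      refine Finset.sum_eq_zero fun j _ => ?_
      rw [hz _ a b hne (by rw [Function.update_of_ne hla.symm, Function.update_of_ne hlb.symm, hab]),
        mul_zero]
    rw [← Finset.sum_subset (Finset.subset_univ {a, b}) (fun l _ hl => by
      rw [Finset.mem_insert, Finset.mem_singleton, not_or] at hl
      exact h1 l hl.1 hl.2), Finset.sum_pair hne, ← Finset.sum_add_distrib]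
    refine Finset.sum_eq_zero fun j _ => ?_
    have h2 : cst ℂ (cfE E ω) (Function.update K b j) = -cst ℂ (cfE E ω) (Function.update K a j) := by
      have h3 : (fun l => E (Function.update K b j l)) =
          (fun l => E (Function.update K a j l)) ∘ Equiv.swap a b := by
        funext l
        change _ = E (Function.update K a j (Equiv.swap a b l))
        by_cases hla : l = a
        · subst hla
          rw [Equiv.swap_apply_left, Function.update_of_ne hne, Function.update_of_ne hne.symm, hab]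
        · by_cases hlb : l = b
          · subst hlb
            rw [Equiv.swap_apply_right, Function.update_self, Function.update_self]
          · rw [Equiv.swap_apply_of_ne_of_ne hla hlb, Function.update_of_ne hlb,
              Function.update_of_ne hla]
      rw [cst_apply, cst_apply, cfE, cfE, h3, ω.map_swap _ hne, Rat.cast_neg]
    rw [h2, hab]
    ring

end top

variable {k j : ℕ}

/-- The contraction of a form with the tensor `G`, by means of the bilinear form `O`. -/
def ctr (O : Matrix B B ℚ) (ω : W [⋀^Fin k ⊕ Fin j]→ₗ[ℚ] ℚ) (G : (Fin k → B) → ℚ) :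
    W [⋀^Fin j]→ₗ[ℚ] ℚ :=
  ∑ I : Fin k → B, ∑ I' : Fin k → B, (G I' * ∏ l, O (I l) (I' l)) • slot ω (fun l => E (I l))

theorem cfE_ctr (O : Matrix B B ℚ) (ω : W [⋀^Fin k ⊕ Fin j]→ₗ[ℚ] ℚ) (G : (Fin k → B) → ℚ)
    (J : Fin j → B) :
    cfE E (ctr E O ω G) J = EB (Fin k) O (fun I => cfE E ω (Sum.elim I J)) G := by
  have h1 : ∀ I : Fin k → B, Sum.elim (fun l => E (I l)) (fun l => E (J l)) =
      fun l => E (Sum.elim I J l) := by
    intro I
    funext l
    rcases l with l | l <;> rfl
  let Λ : (W [⋀^Fin j]→ₗ[ℚ] ℚ) →ₗ[ℚ] ℚ :=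
    { toFun := fun β => β (fun l => E (J l))
      map_add' := fun β β' => rfl
      map_smul' := fun r β => rfl }
  change Λ (ctr E O ω G) = _
  unfold ctr
  simp only [map_sum, map_smul, smul_eq_mul]
  rw [EB_apply]
  refine Finset.sum_congr rfl fun I _ => Finset.sum_congr rfl fun I' _ => ?_
  change _ * ω (Sum.elim (fun l => E (I l)) (fun l => E (J l))) = _
  rw [h1]
  unfold cfE
  ring

/-- Contractions of forms of top degree with Hodge tensors have Hodge coordinates. -/
theorem isH_ctr {D : Matrix B B ℂ} (h : PolH D) (htr : trace D = 0) (hcard : k + j = Fintype.card B)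
    (ω : W [⋀^Fin k ⊕ Fin j]→ₗ[ℚ] ℚ) {G : (Fin k → B) → ℚ} (hG : IsH D G) :
    IsH D (cfE E (ctr E h.Om ω G)) := by
  have htop := act_top E (κ := Fin k ⊕ Fin j) (D := D) (by
    rw [Fintype.card_sum, Fintype.card_fin, Fintype.card_fin, hcard]) htr ω
  obtain ⟨O, hO⟩ : ∃ O : Matrix B B ℂ, O = h.Om.map (fun x : ℚ => (x : ℂ)) := ⟨_, rfl⟩
  have hc : ∀ J : Fin j → B, cst ℂ (cfE E (ctr E h.Om ω G)) J =
      EB (Fin k) O (cst ℂ (fun I => cfE E ω (Sum.elim I J))) (cst ℂ G) := by
    intro J
    rw [cst_apply, cfE_ctr, hO, EB_cst]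
  unfold IsH
  funext J
  change ∑ l, ∑ b, D b (J l) * cst ℂ (cfE E (ctr E h.Om ω G)) (Function.update J l b) = 0
  have h1 : ∑ l, ∑ b, D b (J l) * cst ℂ (cfE E (ctr E h.Om ω G)) (Function.update J l b) =
      EB (Fin k) O (∑ l, ∑ b, D b (J l) •
        cst ℂ (fun I => cfE E ω (Sum.elim I (Function.update J l b)))) (cst ℂ G) := by
    simp only [map_sum, LinearMap.sum_apply, map_smul, LinearMap.smul_apply, smul_eq_mul, hc]
  have h2 : (∑ l, ∑ b, D b (J l) •
        cst ℂ (fun I => cfE E ω (Sum.elim I (Function.update J l b)))) =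
      -act D (cst ℂ (fun I => cfE E ω (Sum.elim I J))) := by
    funext I
    have h3 := congrFun htop (Sum.elim I J)
    change ∑ l, ∑ b, D b (Sum.elim I J l) * cst ℂ (cfE E ω) (Function.update (Sum.elim I J) l b) =
      0 at h3
    rw [Fintype.sum_sum_type] at h3
    simp only [Sum.elim_inl, Sum.elim_inr, ← Sum.elim_update_left, ← Sum.elim_update_right] at h3
    rw [eq_comm, Pi.neg_apply, neg_eq_iff_add_eq_zero]
    rw [Finset.sum_apply]
    simp only [Finset.sum_apply, Pi.smul_apply, smul_eq_mul]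
    exact h3
  rw [h1, h2, map_neg, LinearMap.neg_apply, neg_eq_zero]
  have h4 := EB_act (κ := Fin k) (O := O) (X := D) (by rw [hO]; exact h.sp')
    (cst ℂ (fun I => cfE E ω (Sum.elim I J))) (cst ℂ G)
  have h5 : act D (cst ℂ G) = 0 := hG
  rw [h5, map_zero, add_zero] at h4
  exact h4

/-- The integral of the product of a form with a contraction of the volume form. -/
theorem wedge_ctr (O : Matrix B B ℚ) (e : Basis (Fin k ⊕ Fin j) ℚ W) (f : W [⋀^Fin k]→ₗ[ℚ] ℚ)
    (G : (Fin k → B) → ℚ) :
    wedgeW f (ctr E O e.det G) e =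
      (k.factorial : ℚ) * (j.factorial : ℚ) * EB (Fin k) O (cfE E f) G := by
  have hlin : ∀ β : W [⋀^Fin j]→ₗ[ℚ] ℚ, wedgeW f β e = ∑ σ : Perm (Fin k ⊕ Fin j),
      (Perm.sign σ : ℤ) • (f (fun l => e (σ (Sum.inl l))) * β (fun l => e (σ (Sum.inr l)))) :=
    fun β => wedgeW_apply f β e
  let Λ : (W [⋀^Fin j]→ₗ[ℚ] ℚ) →ₗ[ℚ] ℚ :=
    { toFun := fun β => wedgeW f β e
      map_add' := fun β β' => by
        rw [hlin, hlin, hlin, ← Finset.sum_add_distrib]
        refine Finset.sum_congr rfl fun σ _ => ?_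
        rw [AlternatingMap.add_apply, mul_add, smul_add]
      map_smul' := fun r β => by
        rw [hlin, hlin, RingHom.id_apply, Finset.smul_sum]
        refine Finset.sum_congr rfl fun σ _ => ?_
        rw [AlternatingMap.smul_apply, smul_eq_mul, smul_comm r, smul_eq_mul]
        congr 1
        ring }
  change Λ (ctr E O e.det G) = _
  unfold ctr
  simp only [map_sum, map_smul, smul_eq_mul]
  rw [EB_apply, Finset.mul_sum]
  refine Finset.sum_congr rfl fun I _ => ?_
  rw [Finset.mul_sum]
  refine Finset.sum_congr rfl fun I' _ => ?_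
  change _ * wedgeW f (slot e.det (fun l => E (I l))) e = _
  rw [wedge_slot]
  unfold cfE
  ring

/-- A Hodge structure of weight one has trace zero. -/
theorem trace_zero_of_pol {D : Matrix B B ℂ} (h : PolH D) : trace D = 0 := by
  obtain ⟨O, hO⟩ : ∃ O : Matrix B B ℂ, O = h.Om.map (fun x : ℚ => (x : ℂ)) := ⟨_, rfl⟩
  have h1 : Dᵀ * O + O * D = 0 := by rw [hO]; exact h.sp
  have h2 : O * O = -1 := by rw [hO]; exact h.sqK ℂ
  have h3 : trace (O * (Dᵀ * O + O * D)) = 0 := by rw [h1, Matrix.mul_zero, trace_zero]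
  have h4 : O * (Dᵀ * O + O * D) = O * (Dᵀ * O) + (O * O) * D := by noncomm_ring
  have h5 : trace (O * (Dᵀ * O)) = -trace D := by
    rw [trace_mul_comm, Matrix.mul_assoc, h2, Matrix.mul_neg, Matrix.mul_one, trace_neg,
      trace_transpose]
  rw [h4, trace_add, h5, h2, Matrix.neg_mul, Matrix.one_mul, trace_neg] at h3
  linear_combination (-(1 / 2) : ℂ) * h3

/-- For every nonzero form whose coordinates are Hodge tensors for a set of Hodge structures there is
such a form of complementary degree such that the integral of the product is not zero. -/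
theorem exists_dual {X : Type} [Nonempty X] {D : X → Matrix B B ℂ} (h : ∀ x, PolH (D x))
    (hOm : ∀ x y, (h x).Om = (h y).Om)
    (hE : ∀ {κ : Type} [Fintype κ] [DecidableEq κ] (f : W [⋀^κ]→ₗ[ℚ] ℚ), cfE E f = 0 → f = 0)
    (hcard : k + j = Fintype.card B) (e : Basis (Fin k ⊕ Fin j) ℚ W)
    {f : W [⋀^Fin k]→ₗ[ℚ] ℚ} (hf : ∀ x, IsH (D x) (cfE E f)) (h0 : f ≠ 0) :
    ∃ β : W [⋀^Fin j]→ₗ[ℚ] ℚ, (∀ x, IsH (D x) (cfE E β)) ∧ wedgeW f β e ≠ 0 := by
  by_contra hcon
  push Not at hcon
  apply h0
  apply hE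
  obtain ⟨x₀⟩ := ‹Nonempty X›
  let V : Submodule ℚ ((Fin k → B) → ℚ) :=
    { carrier := {c | ∀ x, IsH (D x) c}
      zero_mem' := fun x => by
        change act (D x) (cst ℂ 0) = 0
        rw [cst_zero, act_zero_right]
      add_mem' := fun {c c'} hc hc' x => by
        change act (D x) (cst ℂ (c + c')) = 0
        rw [cst_add, act_add_right, show act (D x) (cst ℂ c) = 0 from hc x,
          show act (D x) (cst ℂ c') = 0 from hc' x, add_zero]
      smul_mem' := fun r c hc x => by
        change act (D x) (cst ℂ (r • c)) = 0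
        have h1 : cst ℂ (r • c) = (r : ℂ) • cst ℂ c := by
          funext I
          simp [cst]
        rw [h1, act_smul_right, show act (D x) (cst ℂ c) = 0 from hc x, smul_zero] }
  have hV : HL (D x₀) 0 V := by
    intro c hc
    refine Submodule.mem_iSup_of_mem (⟨0, by simp⟩ : {a : ℤ // |a| ≤ 0}) ⟨cst_mem_cx hc, ?_⟩
    change act (D x₀) (cst ℂ c) = ((0 : ℤ) : ℂ) • cst ℂ c
    rw [Int.cast_zero, zero_smul]
    exact hc x₀
  refine (h x₀).nondeg hV (v := cfE E f) hf fun G hG => ?_
  have h1 := hcon (ctr E (h x₀).Om e.det G) (fun x => by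
    rw [hOm x₀ x]
    exact isH_ctr E (h x) (trace_zero_of_pol (h x)) hcard e.det (hG x))
  rw [wedge_ctr] at h1
  have h2 : (k.factorial : ℚ) * (j.factorial : ℚ) ≠ 0 :=
    mul_ne_zero (Nat.cast_ne_zero.2 (Nat.factorial_ne_zero _))
      (Nat.cast_ne_zero.2 (Nat.factorial_ne_zero _))
  exact (mul_eq_zero.1 h1).resolve_left h2

end

end Pool.Agent.TH504.VY
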