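import Mathlib
import Pool.Agent.TH131.GHC.Fin

/-!
# Coordinates on a product of abelian varieties
-/

set_option linter.unusedSectionVars false

namespace Pool.Agent.TH504.VY

open Matrix Equiv Pool.Agent.H204R3.CM Pool.Agent.H204R3.SP Pool.Agent.H204R3.GH
  Pool.Agent.W437.HC Pool.Agent.W437.HD Pool.Agent.W437.HP Pool.Agent.W437.HR
  Pool.Agent.W546.GHC Pool.Agent.TH131.GHC

noncomputable section

variable {n : ℕ} {g : Fin n → ℕ}

/-- The rational homology of the product in coordinates. -/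
def aP (g : Fin n → ℕ) : (∀ i, Fin (g i) ⊕ Fin (g i) → ℚ) →ₗ[ℚ]
    (Fin (NB g) ⊕ Fin (NB g) → ℚ) where
  toFun w := ∑ j, (pm g ℚ j)ᵀ *ᵥ w j
  map_add' v w := by
    rw [← Finset.sum_add_distrib]
    exact Finset.sum_congr rfl fun j _ => mulVec_add _ _ _
  map_smul' r w := by
    rw [RingHom.id_apply, Finset.smul_sum]
    exact Finset.sum_congr rfl fun j _ => mulVec_smul _ r (w j)

/-- The inverse map. -/
def sP (g : Fin n → ℕ) : (Fin (NB g) ⊕ Fin (NB g) → ℚ) →ₗ[ℚ]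
    (∀ i, Fin (g i) ⊕ Fin (g i) → ℚ) where
  toFun x := fun j => pm g ℚ j *ᵥ x
  map_add' x y := by
    funext j
    exact mulVec_add _ _ _
  map_smul' r x := by
    funext j
    exact mulVec_smul _ r x

theorem sP_aP (w : ∀ i, Fin (g i) ⊕ Fin (g i) → ℚ) : sP g (aP g w) = w := by
  funext j
  change pm g ℚ j *ᵥ (∑ i, (pm g ℚ i)ᵀ *ᵥ w i) = w j
  rw [mulVec_sum, Finset.sum_eq_single j]
  · rw [mulVec_mulVec, pm_same, one_mulVec]
  · intro i _ hi
    rw [mulVec_mulVec, pm_off ℚ (Ne.symm hi), zero_mulVec]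
  · intro h
    exact absurd (Finset.mem_univ _) h

theorem aP_sP (x : Fin (NB g) ⊕ Fin (NB g) → ℚ) : aP g (sP g x) = x := by
  change ∑ j, (pm g ℚ j)ᵀ *ᵥ (pm g ℚ j *ᵥ x) = x
  have h1 : ∀ j, (pm g ℚ j)ᵀ *ᵥ (pm g ℚ j *ᵥ x) = ((pm g ℚ j)ᵀ * pm g ℚ j) *ᵥ x :=
    fun j => mulVec_mulVec _ _ _
  rw [Finset.sum_congr rfl (fun j _ => h1 j), ← sum_mulVec, pm_tot, one_mulVec]

/-- The coordinates as an equivalence. -/
def eP (g : Fin n → ℕ) : (∀ i, Fin (g i) ⊕ Fin (g i) → ℚ) ≃ₗ[ℚ]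
    (Fin (NB g) ⊕ Fin (NB g) → ℚ) :=
  LinearEquiv.ofLinear (aP g) (sP g) (LinearMap.ext aP_sP) (LinearMap.ext sP_aP)

variable (Z : ∀ i, Matrix (Fin (g i)) (Fin (g i)) ℂ)

/-- Coordinates on a product of abelian varieties. -/
def frame1 (hpos : ∀ i, (imM (Z i)).PosDef) :
    Frame (perProd Z) (JR (bigD ℂ Z)) Unit where
  a _ := aP g
  s _ := sP g
  tot w := by
    rw [Finset.univ_unique, Finset.sum_singleton, sP_aP]
  aR _ :=
    { toFun := fun u => ∑ j, (pm g ℝ j)ᵀ *ᵥ invR (Z j) (u j)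
      map_add' := fun v w => by
        rw [← Finset.sum_add_distrib]
        refine Finset.sum_congr rfl fun j _ => ?_
        rw [Pi.add_apply, map_add, mulVec_add]
      map_smul' := fun r w => by
        rw [RingHom.id_apply, Finset.smul_sum]
        refine Finset.sum_congr rfl fun j _ => ?_
        rw [Pi.smul_apply, map_smul, mulVec_smul] }
  sR _ :=
    { toFun := fun x j => perR (Z j) (pm g ℝ j *ᵥ x)
      map_add' := fun x y => by
        funext j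
        rw [mulVec_add, map_add, Pi.add_apply]
      map_smul' := fun r x => by
        funext j
        rw [mulVec_smul, map_smul, Pi.smul_apply]
        rfl }
  aR_per _ w := by
    change ∑ j, (pm g ℝ j)ᵀ *ᵥ invR (Z j) (perOne (Z j) (w j)) =
      fun i => (((∑ j, (pm g ℚ j)ᵀ *ᵥ w j) i : ℚ) : ℝ)
    have h2 : ∀ j, (pm g ℝ j)ᵀ *ᵥ invR (Z j) (perOne (Z j) (w j)) =
        fun i => ((((pm g ℚ j)ᵀ *ᵥ w j) i : ℚ) : ℝ) := by
      intro j
      rw [perOne_eq, invR_perR ((hpos j).isUnit.map Matrix.detMonoidHom), castR_mulVec]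
      congr 1
      have h1 : cK ℝ (pm g ℚ j)ᵀ = (cK ℝ (pm g ℚ j))ᵀ := rfl
      rw [h1, cK_pm]
    rw [Finset.sum_congr rfl (fun j _ => h2 j)]
    funext i
    rw [Finset.sum_apply, Finset.sum_apply]
    push_cast
    rfl
  sR_per _ x := by
    funext j
    change perR (Z j) (pm g ℝ j *ᵥ (fun i => ((x i : ℚ) : ℝ))) = perOne (Z j) (pm g ℚ j *ᵥ x)
    rw [perOne_eq, castR_mulVec, cK_pm]
  aR_rot _ z u := by
    change ∑ j, (pm g ℝ j)ᵀ *ᵥ invR (Z j) (z • u j) =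
      z.re • (∑ j, (pm g ℝ j)ᵀ *ᵥ invR (Z j) (u j)) +
      z.im • (JR (bigD ℂ Z) *ᵥ (∑ j, (pm g ℝ j)ᵀ *ᵥ invR (Z j) (u j)))
    rw [mulVec_sum, Finset.smul_sum, Finset.smul_sum, ← Finset.sum_add_distrib]
    refine Finset.sum_congr rfl fun j _ => ?_
    rw [invR_rotate ((hpos j).isUnit.map Matrix.detMonoidHom), mulVec_add, mulVec_smul,
      mulVec_smul, mulVec_mulVec, mulVec_mulVec, JR_pmT Z hpos]
  sR_rot _ x := by
    funext j
    change perR (Z j) (pm g ℝ j *ᵥ (JR (bigD ℂ Z) *ᵥ x)) =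
      Complex.I • perR (Z j) (pm g ℝ j *ᵥ x)
    rw [mulVec_mulVec, pm_JR Z hpos, ← mulVec_mulVec,
      perR_JR _ ((hpos j).isUnit.map Matrix.detMonoidHom)]

/-- The coordinates of a form with respect to the basis of the homology. -/
theorem frame1_cf (hpos : ∀ i, (imM (Z i)).PosDef) {κ : Type*} [Fintype κ] [DecidableEq κ]
    (f : (∀ i, Fin (g i) ⊕ Fin (g i) → ℚ) [⋀^κ]→ₗ[ℚ] ℚ) (I : κ → Fin (NB g) ⊕ Fin (NB g)) :
    (frame1 Z hpos).cf (fun _ => ()) f I = f (fun l => sP g (Pi.single (I l) 1)) := rfl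

example (ι : Type) (g : ι → ℕ) (Z : ∀ i, Matrix (Fin (g i)) (Fin (g i)) ℂ) (c : Fin n → ι) :
    perFam Z c = perProd (fun j => Z (c j)) := rfl

end

end Pool.Agent.TH504.VY
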