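import Mathlib
import Pool.Agent.TH125.Vhc

/-!
# Monodromy operators of families over bases of any dimension

The proof is the one of `Pool/Agent/TH125/Vhc.lean`.
-/

set_option linter.unusedSectionVars false
set_option linter.unusedVariables false

namespace Pool.Agent.TH504.VY

open Matrix Module Pool.Agent.W548.Odd Pool.Agent.W437.HC Pool.Agent.W437.HD Pool.Agent.W437.HP
  Pool.Agent.H204R3.CM Pool.Agent.H194R3.CM Pool.Agent.TH125
open Pool.Agent.W437.HQ (PZ PZ_DZ DZ_of_PZ perOne_PZ)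

variable {g : ℕ}

/-- The nilpotent part of a monodromy operator of index two is in the Lie algebra. -/
theorem mono_mem {E : Type*} {U : Set E} {Z : E → Matrix (Fin g) (Fin g) ℂ} (hW : IsPer (Z '' U))
    (hne : U.Nonempty) {γ : Matrix (Fin g ⊕ Fin g) (Fin g ⊕ Fin g) ℚ} (hγ : γᵀ * Om g ℚ * γ = Om g ℚ ∧ ∀ t ∈ U, ∃ t' ∈ U, ∃ C : Matrix (Fin g) (Fin g) ℂ,
      ∀ w, perOne (Z t') (γ.mulVec w) = C.mulVec (perOne (Z t) w))
    (h2 : (γ - 1) * (γ - 1) = 0) : W548.Odd.qm (γ - 1) ∈ LA (DZ '' (Z '' U)) := by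
  obtain ⟨t0, ht0⟩ := hne
  obtain ⟨hsp, hmon⟩ := hγ
  obtain ⟨N, hN⟩ : ∃ N, N = γ - 1 := ⟨_, rfl⟩
  have hγN : γ = 1 + N := by rw [hN]; abel
  rw [← hN] at h2 ⊢
  have hY : ∀ t ∈ U, IsUnit (imM (Z t)).det := fun t ht =>
    (hW _ ⟨t, ht, rfl⟩).2.isUnit.map Matrix.detMonoidHom
  have hinv : (1 + N) * (1 - N) = 1 := by
    have : (1 + N) * (1 - N) = 1 - N * N := by noncomm_ring
    rw [this, h2, sub_zero]
  have hinv' : (1 - N) * (1 + N) = 1 := mul_eq_one_comm.1 hinv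
  -- symplectic
  have hNsp : Nᵀ * Om g ℚ + Om g ℚ * N = 0 := by
    rw [hγN, transpose_add, transpose_one] at hsp
    have e1 : Nᵀ * Nᵀ = 0 := by rw [← transpose_mul, h2, transpose_zero]
    have e2 : Nᵀ * ((1 + Nᵀ) * Om g ℚ * (1 + N)) = Nᵀ * Om g ℚ := by rw [hsp]
    have e3 : Nᵀ * ((1 + Nᵀ) * Om g ℚ * (1 + N)) = Nᵀ * Om g ℚ + Nᵀ * Om g ℚ * N := by
      have : Nᵀ * ((1 + Nᵀ) * Om g ℚ * (1 + N)) =
          Nᵀ * Om g ℚ + Nᵀ * Om g ℚ * N + (Nᵀ * Nᵀ) * Om g ℚ + (Nᵀ * Nᵀ) * Om g ℚ * N := by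
        noncomm_ring
      rw [this, e1, Matrix.zero_mul, Matrix.zero_mul, add_zero, add_zero]
    have e4 : Nᵀ * Om g ℚ * N = 0 := by
      rw [e3] at e2
      exact left_eq_add.1 e2.symm
    have e5 : (1 + Nᵀ) * Om g ℚ * (1 + N) =
        Om g ℚ + (Nᵀ * Om g ℚ + Om g ℚ * N) + Nᵀ * Om g ℚ * N := by noncomm_ring
    rw [e5, e4, add_zero] at hsp
    exact left_eq_add.1 hsp.symm
  -- conjugation
  have hqN : W548.Odd.qm N * W548.Odd.qm N = 0 := by rw [← W548.Odd.qm_mul, h2, qm_zero]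
  have hq1 : W548.Odd.qm (1 : Matrix (Fin g ⊕ Fin g) (Fin g ⊕ Fin g) ℚ) = 1 := by
    ext i j
    simp [W548.Odd.qm, Matrix.one_apply, apply_ite]
  have hqp : W548.Odd.qm (1 + N) = 1 + W548.Odd.qm N := by
    ext i j
    simp [W548.Odd.qm, Matrix.one_apply, apply_ite]
  have hinvC : (1 + W548.Odd.qm N) * (1 - W548.Odd.qm N) = 1 := by
    have : (1 + W548.Odd.qm N) * (1 - W548.Odd.qm N) = 1 - W548.Odd.qm N * W548.Odd.qm N := by
      noncomm_ring
    rw [this, hqN, sub_zero]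
  have hinvC' : (1 - W548.Odd.qm N) * (1 + W548.Odd.qm N) = 1 := mul_eq_one_comm.1 hinvC
  let cL : Matrix (Fin g ⊕ Fin g) (Fin g ⊕ Fin g) ℂ →ₗ[ℂ]
      Matrix (Fin g ⊕ Fin g) (Fin g ⊕ Fin g) ℂ :=
    { toFun := fun X => (1 + W548.Odd.qm N) * X * (1 - W548.Odd.qm N)
      map_add' := fun X Y => by rw [mul_add, add_mul]
      map_smul' := fun a X => by simp }
  have hcinj : Function.Injective cL := by
    rw [← LinearMap.ker_eq_bot, LinearMap.ker_eq_bot']
    intro X hX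
    have h3 : (1 + W548.Odd.qm N) * X * (1 - W548.Odd.qm N) = 0 := hX
    calc X = ((1 - W548.Odd.qm N) * (1 + W548.Odd.qm N)) * X *
          ((1 - W548.Odd.qm N) * (1 + W548.Odd.qm N)) := by rw [hinvC', one_mul, mul_one]
    _ = (1 - W548.Odd.qm N) * ((1 + W548.Odd.qm N) * X * (1 - W548.Odd.qm N)) *
          (1 + W548.Odd.qm N) := by noncomm_ring
    _ = 0 := by rw [h3, mul_zero, zero_mul]
  have hmap : ∀ X ∈ LA (DZ '' (Z '' U)), cL X ∈ LA (DZ '' (Z '' U)) := by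
    have h3 : LA (DZ '' (Z '' U)) ≤ (LA (DZ '' (Z '' U))).comap cL := by
      refine LA_le ⟨?_, ?_⟩
      · rintro _ ⟨_, ⟨t, ht, rfl⟩, rfl⟩ f
        change (1 + W548.Odd.qm N) * (DZ (Z t)).map f * (1 - W548.Odd.qm N) ∈ LA (DZ '' (Z '' U))
        obtain ⟨t', ht', C, hC⟩ := hmon t ht
        have h4 := hom_comm (hY t ht) (hY t' ht') hC
        rw [hγN, hqp] at h4
        have h5 : DZ (Z t') = (1 + W548.Odd.qm N) * DZ (Z t) * (1 - W548.Odd.qm N) := by
          rw [h4, mul_assoc, hinvC, mul_one]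
        have h6 : ((1 + W548.Odd.qm N) * DZ (Z t) * (1 - W548.Odd.qm N)).map f =
            (1 + W548.Odd.qm N) * (DZ (Z t)).map f * (1 - W548.Odd.qm N) := by
          have hl : ∀ (P : Matrix (Fin g ⊕ Fin g) (Fin g ⊕ Fin g) ℚ)
              (X : Matrix (Fin g ⊕ Fin g) (Fin g ⊕ Fin g) ℂ),
              (W548.Odd.qm P * X).map f = W548.Odd.qm P * X.map f := by
            intro P X
            ext i j
            simp only [Matrix.map_apply, Matrix.mul_apply, map_sum]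
            refine Finset.sum_congr rfl fun k _ => ?_
            rw [← Rat.smul_def, map_smul, Rat.smul_def]
          have hr : ∀ (P : Matrix (Fin g ⊕ Fin g) (Fin g ⊕ Fin g) ℚ)
              (X : Matrix (Fin g ⊕ Fin g) (Fin g ⊕ Fin g) ℂ),
              (X * W548.Odd.qm P).map f = X.map f * W548.Odd.qm P := by
            intro P X
            ext i j
            simp only [Matrix.map_apply, Matrix.mul_apply, map_sum]
            refine Finset.sum_congr rfl fun k _ => ?_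
            rw [mul_comm, ← Rat.smul_def, map_smul, Rat.smul_def, mul_comm]
          have hqm' : (1 - W548.Odd.qm N) = W548.Odd.qm (1 - N) := by
            rw [qm_sub, hq1]
          rw [← hqp, hqm', hr, hl]
        rw [← h6, ← h5]
        have h7 : DZ (Z t') ∈ DZ '' (Z '' U) := ⟨Z t', ⟨t', ht', rfl⟩, rfl⟩
        exact LA_gen h7 f
      · intro A hA C hC
        have hA' : (1 + W548.Odd.qm N) * A * (1 - W548.Odd.qm N) ∈ LA (DZ '' (Z '' U)) := hA
        have hC' : (1 + W548.Odd.qm N) * C * (1 - W548.Odd.qm N) ∈ LA (DZ '' (Z '' U)) := hC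
        change (1 + W548.Odd.qm N) * (A * C - C * A) * (1 - W548.Odd.qm N) ∈ LA (DZ '' (Z '' U))
        have h4 := LA_br hA' hC'
        have h5 : ∀ A C : Matrix (Fin g ⊕ Fin g) (Fin g ⊕ Fin g) ℂ,
            (1 + W548.Odd.qm N) * A * (1 - W548.Odd.qm N) *
              ((1 + W548.Odd.qm N) * C * (1 - W548.Odd.qm N)) =
            (1 + W548.Odd.qm N) * (A * C) * (1 - W548.Odd.qm N) := by
          intro A C
          calc _ = (1 + W548.Odd.qm N) * A * ((1 - W548.Odd.qm N) * (1 + W548.Odd.qm N)) * C *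
                (1 - W548.Odd.qm N) := by noncomm_ring
          _ = _ := by rw [hinvC', mul_one]; noncomm_ring
        rw [h5, h5] at h4
        have h6 : (1 + W548.Odd.qm N) * (A * C - C * A) * (1 - W548.Odd.qm N) =
            (1 + W548.Odd.qm N) * (A * C) * (1 - W548.Odd.qm N) -
              (1 + W548.Odd.qm N) * (C * A) * (1 - W548.Odd.qm N) := by noncomm_ring
        rw [h6]
        exact h4
    exact fun X hX => h3 hX
  have hback : ∀ X ∈ LA (DZ '' (Z '' U)),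
      (1 - W548.Odd.qm N) * X * (1 + W548.Odd.qm N) ∈ LA (DZ '' (Z '' U)) := by
    intro X hX
    obtain ⟨R, hR⟩ : ∃ R : LA (DZ '' (Z '' U)) →ₗ[ℂ] LA (DZ '' (Z '' U)),
        ∀ X, ((R X : LA (DZ '' (Z '' U))) : Matrix (Fin g ⊕ Fin g) (Fin g ⊕ Fin g) ℂ) = cL X :=
      ⟨cL.restrict hmap, fun X => rfl⟩
    have hRinj : Function.Injective R := by
      intro X Y hXY
      apply Subtype.ext
      apply hcinj
      rw [← hR, ← hR, hXY]
    have hRsurj := LinearMap.surjective_of_injective hRinj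
    obtain ⟨⟨Y, hYm⟩, hYX⟩ := hRsurj ⟨X, hX⟩
    have h3 : (1 + W548.Odd.qm N) * Y * (1 - W548.Odd.qm N) = X := by
      have h4 := hR ⟨Y, hYm⟩
      rw [hYX] at h4
      exact h4.symm
    rw [← h3]
    have h4 : (1 - W548.Odd.qm N) * ((1 + W548.Odd.qm N) * Y *
        (1 - W548.Odd.qm N)) * (1 + W548.Odd.qm N) = Y := by
      calc (1 - W548.Odd.qm N) * ((1 + W548.Odd.qm N) * Y *
          (1 - W548.Odd.qm N)) * (1 + W548.Odd.qm N) =
          ((1 - W548.Odd.qm N) * (1 + W548.Odd.qm N)) * Y *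
          ((1 - W548.Odd.qm N) * (1 + W548.Odd.qm N)) := by noncomm_ring
      _ = Y := by rw [hinvC', one_mul, mul_one]
    rw [h4]
    exact hYm
  refine rat_mem_of_normalizes hW ⟨t0, ht0, rfl⟩ ⟨2, by rw [pow_two, h2]⟩ hNsp fun X hX => ?_
  have h3 := Submodule.sub_mem _ (hmap X hX) (hback X hX)
  have h3' : (1 + W548.Odd.qm N) * X * (1 - W548.Odd.qm N) -
    (1 - W548.Odd.qm N) * X * (1 + W548.Odd.qm N) ∈ LA (DZ '' (Z '' U)) := h3
  have h4 : W548.Odd.qm N * X - X * W548.Odd.qm N = (2 : ℂ)⁻¹ •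
      ((1 + W548.Odd.qm N) * X * (1 - W548.Odd.qm N) -
        (1 - W548.Odd.qm N) * X * (1 + W548.Odd.qm N)) := by
    have h5 : (1 + W548.Odd.qm N) * X * (1 - W548.Odd.qm N) -
        (1 - W548.Odd.qm N) * X * (1 + W548.Odd.qm N) =
        (2 : ℂ) • (W548.Odd.qm N * X - X * W548.Odd.qm N) := by
      rw [two_smul]
      noncomm_ring
    rw [h5, smul_smul, inv_mul_cancel₀ two_ne_zero, one_smul]
  rw [h4]
  exact Submodule.smul_mem _ _ h3'


end Pool.Agent.TH504.VY
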