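import Mathlib
import Pool.Agent.TH125.RankIn
import Pool.Agent.TH131.GHC.Ind5
import Pool.Agent.TH504.VL.Large
import Pool.Agent.TH504.VY.Defs
import Pool.Agent.TH504.VY.Mono

/-!
# Very general members of moving families
-/

set_option linter.unusedSectionVars false

namespace Pool.Agent.TH504.VY

open Matrix Module Filter Topology Pool.Agent.W437.HC Pool.Agent.W437.HD Pool.Agent.W437.HP
  Pool.Agent.W437.HR Pool.Agent.H204R3.CM Pool.Agent.H194R3.CM Pool.Agent.W548.Odd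
  Pool.Agent.TH125 Pool.Agent.TH504.VL

variable {g d : ℕ} {U : Set (Fin d → ℂ)} {Z : (Fin d → ℂ) → Matrix (Fin g) (Fin g) ℂ}

theorem rankIn_of_family (hU : IsOpen U) (hol : ∀ i j, AnalyticOnNhd ℂ (fun t => Z t i j) U)
    (hW : IsPer (Z '' U)) (hne : U.Nonempty) {r : ℕ} (hr : IsFamilyRank U Z r) :
    RankIn (Z '' U) r := by
  rcases hr with ⟨γ, hγ, h2, rfl⟩ | ⟨s, hs, u, rfl⟩ | ⟨s, hs, t, ht, rfl⟩
  · refine ⟨_, mono_mem hW hne hγ h2, ?_, ?_⟩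
    · rw [← qm_mul, h2, qm_zero]
    · exact rank_map_hom (Rat.castHom ℂ) (γ - 1)
  · have h1 := ks_mem hU hol hW hs u
    have hZ : (Z s)ᵀ = Z s := (hW _ ⟨s, hs, rfl⟩).1
    have hY : IsUnit (imM (Z s)).det := (hW _ ⟨s, hs, rfl⟩).2.isUnit.map Matrix.detMonoidHom
    refine ⟨_, h1.2, ?_, rank_TT hZ hY _⟩
    have h2 : (TT (Z s) * ksMap Z s u * (TT (Z s))ᵀ * Om g ℂ) *
        (TT (Z s) * ksMap Z s u * (TT (Z s))ᵀ * Om g ℂ) =
        TT (Z s) * ksMap Z s u * ((TT (Z s))ᵀ * Om g ℂ * TT (Z s)) * ksMap Z s u *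
          (TT (Z s))ᵀ * Om g ℂ := by
      simp only [Matrix.mul_assoc]
    rw [h2, TT_TT hZ hY, Matrix.mul_zero, Matrix.zero_mul, Matrix.zero_mul, Matrix.zero_mul]
  · exact rankIn_points hW ⟨s, hs, rfl⟩ ⟨t, ht, rfl⟩

/-- The pieces of very general members. -/
theorem moving_pcs (hU : IsOpen U) (h : IsMovingFamily U Z) :
    ∃ h : (Fin d → ℂ) → ℂ, AnalyticOnNhd ℂ h U ∧ (∃ s ∈ U, h s ≠ 0) ∧
      ∀ t ∈ U, h t ≠ 0 → (∀ s ∈ U, DZ (Z s) ∈ lieM (DZ (Z t)) ℂ) → HasPcs (DZ (Z t)) := by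
  obtain ⟨hol, hper, ⟨s, hs, hsimple⟩, hcase⟩ := h
  have hW : IsPer (Z '' U) := by
    rintro _ ⟨t, ht, rfl⟩
    exact hper t ht
  have hY : ∀ t ∈ U, IsUnit (imM (Z t)).det := fun t ht =>
    (hper t ht).2.isUnit.map Matrix.detMonoidHom
  have hlarge : (HasRealCentre U Z ∧
      ∃ s ∈ U, (g - 1) ^ 2 < 8 * finrank ℂ (LinearMap.range (ksMap Z s))) →
      ∃ h : (Fin d → ℂ) → ℂ, AnalyticOnNhd ℂ h U ∧ (∃ s ∈ U, h s ≠ 0) ∧
      ∀ t ∈ U, h t ≠ 0 → (∀ s ∈ U, DZ (Z s) ∈ lieM (DZ (Z t)) ℂ) → HasPcs (DZ (Z t)) :=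
    fun h => large_pcs hU ⟨hol, hper, ⟨s, hs, hsimple⟩, h.1, h.2⟩
  have hsmall : (∃ r, RankIn (Z '' U) r ∧ (Odd r ∨ (r = 2 ∧ HasRealCentre U Z))) →
      ∃ h : (Fin d → ℂ) → ℂ, AnalyticOnNhd ℂ h U ∧ (∃ s ∈ U, h s ≠ 0) ∧
      ∀ t ∈ U, h t ≠ 0 → (∀ s ∈ U, DZ (Z s) ∈ lieM (DZ (Z t)) ℂ) → HasPcs (DZ (Z t)) := by
    rintro ⟨r, ⟨N, hN, hN2, hNr⟩, hcs⟩
    refine ⟨fun _ => 1, analyticOnNhd_const, ⟨s, hs, one_ne_zero⟩, fun t ht _ hvg => ?_⟩
    obtain ⟨hZt, hpos⟩ := hper t ht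
    have h1 : LA (DZ '' (Z '' U)) ≤ lieM (DZ (Z t)) ℂ := by
      refine LA_le_lieM ?_
      rintro _ ⟨_, ⟨s', hs', rfl⟩, rfl⟩
      exact hvg s' hs'
    have h2 : IsSimpleAV (Z t) := simple_of_mem hZt hpos (hper s hs).2 (hvg s hs) hsimple
    rcases hcs with hodd | ⟨h2r, hreal⟩
    · obtain ⟨e, he, he1⟩ := Pool.Agent.W548.Odd.exists_rank_one hW ⟨s, hs, rfl⟩ hsimple (ε := 1)
        (N := N) (fun X _ => by rw [one_mul, mul_one]) (one_mul 1)
        (by rw [Matrix.transpose_one, one_mul, mul_one]) (fun c _ => by rw [one_mul, mul_one])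
        hN hN2 (by rw [one_mul, hNr]; exact hodd)
      obtain ⟨v, hv, h3⟩ := sq_of_rank_one hZt (h1 he) he1
      exact hasPcs_of_top (Om_transpose ℂ) (Om_unit ℂ) (sp_C hZt)
        (UU_eq_top hZt (hY t ht) h2 ⟨v, good_of_sq_gen hZt hpos hv h3⟩)
    · have hN0 : N ≠ 0 := by
        rintro rfl
        rw [rank_zero] at hNr
        omega
      refine hasPcs_of_rank hZt hpos h2 ?_ (h1 hN) hN0 (by omega)
      intro φ M hφ hcomm
      have key : ∀ (ψ : Matrix (Fin g ⊕ Fin g) (Fin g ⊕ Fin g) ℚ) (N' : Matrix (Fin g) (Fin g) ℂ),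
          Pool.Agent.W437.HQ.IsEndo (Z t) ψ N' → IsEndomorphism U Z ψ := by
        intro ψ N' hψ s' hs'
        have h3 := Pool.Agent.W437.HQ.comm_lie hZt (Pool.Agent.W437.HQ.endo_comm (hY t ht) hψ)
          (hvg s' hs')
        exact ⟨_, Pool.Agent.W437.HQ.endo_of_comm (hY s' hs') h3⟩
      refine hreal φ (key φ M hφ) fun ψ hψ => ?_
      obtain ⟨N', hN'⟩ := hψ t ht
      exact hcomm ψ N' hN'
  rcases hcase with ⟨r, hr, hodd⟩ | ⟨hreal, hr | hl⟩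
  · exact hsmall ⟨r, rankIn_of_family hU hol hW ⟨s, hs⟩ hr, Or.inl hodd⟩
  · exact hsmall ⟨2, rankIn_of_family hU hol hW ⟨s, hs⟩ hr, Or.inr ⟨rfl, hreal⟩⟩
  · exact hlarge ⟨hreal, hl⟩

/-- A moving family is not constant. -/
theorem moving_nonconst (hU : IsOpen U) (h : IsMovingFamily U Z) :
    ∀ t ∈ U, ∃ s ∈ U, Z s ≠ Z t := by
  intro t ht
  by_contra hcon
  push Not at hcon
  obtain ⟨hol, hper, -, hcase⟩ := h
  have hks : ∀ s ∈ U, ksMap Z s = 0 := by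
    intro s hs
    refine LinearMap.ext fun u => ?_
    ext i j
    change fderiv ℂ (fun t => Z t i j) s u = 0
    have h2 : (fun t => Z t i j) =ᶠ[nhds s] fun _ => Z t i j := by
      filter_upwards [hU.mem_nhds hs] with s' hs'
      rw [hcon s' hs']
    rw [h2.fderiv_eq]
    simp
  have hrank : ∀ r, IsFamilyRank U Z r → r = 0 := by
    intro r hr
    rcases hr with ⟨γ, ⟨hγ, hm⟩, h2, rfl⟩ | ⟨s, hs, u, rfl⟩ | ⟨s, hs, s', hs', rfl⟩
    · obtain ⟨t', ht', C, hC⟩ := hm t ht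
      rw [hcon t' ht'] at hC
      have h1 : γ = 1 := Pool.Agent.TH131.GHC.unip_trivial (hper t ht).1 (hper t ht).2 hγ hC h2
      rw [h1, sub_self, rank_zero]
    · rw [hks s hs, LinearMap.zero_apply, rank_zero]
    · rw [hcon s hs, hcon s' hs', sub_self, rank_zero]
  rcases hcase with ⟨r, hr, hodd⟩ | ⟨-, hr | ⟨s, hs, hr⟩⟩
  · rw [hrank r hr] at hodd
    exact absurd hodd (by decide)
  · exact absurd (hrank 2 hr) (by decide)
  · rw [hks s hs, LinearMap.range_zero, finrank_bot, mul_zero] at hr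
    exact absurd hr (Nat.not_lt_zero _)

/-- There is a point which is very general for all the families and their product, at which all
families have pieces. -/
theorem exists_point_pcs {ι : Type} [Fintype ι] (hU : IsOpen U)
    (hc : IsPreconnected U) (hne : U.Nonempty) {g : ι → ℕ}
    (Z : ∀ i, (Fin d → ℂ) → Matrix (Fin (g i)) (Fin (g i)) ℂ)
    (hmov : ∀ i, IsMovingFamily U (Z i)) : ∃ t₀ ∈ U, (∀ i, HasPcs (DZ (Z i t₀))) ∧
      ∀ s ∈ U, DZ (bigD ℂ (fun i => Z i s)) ∈ lieM (DZ (bigD ℂ (fun i => Z i t₀))) ℂ := by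
  classical
  have hYi : ∀ i, ∀ t ∈ U, IsUnit (imM (Z i t)).det := fun i t ht =>
    ((hmov i).2.1 t ht).2.isUnit.map Matrix.detMonoidHom
  have hYb : ∀ t ∈ U, IsUnit (imM (bigD ℂ (fun i => Z i t))).det := fun t ht =>
    (imM_bigD_posDef (fun i => Z i t) fun i => ((hmov i).2.1 t ht).2).isUnit.map
      Matrix.detMonoidHom
  have hbol : ∀ a b, AnalyticOnNhd ℂ (fun t => bigD ℂ (fun i => Z i t) a b) U := by
    intro a b
    unfold bigD
    simp only [Matrix.sum_apply, Matrix.mul_apply, Matrix.transpose_apply]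
    refine Finset.analyticOnNhd_fun_sum _ fun i _ => Finset.analyticOnNhd_fun_sum _ fun x _ => ?_
    refine AnalyticOnNhd.mul ?_ analyticOnNhd_const
    refine Finset.analyticOnNhd_fun_sum _ fun y _ => ?_
    exact AnalyticOnNhd.mul analyticOnNhd_const ((hmov i).1 _ _)
  choose T hT f hf hfs hft using fun i => vg_functions (Z i) (hmov i).1 (hYi i)
  obtain ⟨T', hT', f', hf', hfs', hft'⟩ := vg_functions (fun t => bigD ℂ (fun i => Z i t)) hbol hYb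
  choose h hh hhs hht using fun i => moving_pcs hU (hmov i)
  have : ∀ i, Countable (T i) := hT
  let F : (Σ i, T i) ⊕ (T' ⊕ ι) → (Fin d → ℂ) → ℂ :=
    Sum.elim (fun p => f p.1 p.2) (Sum.elim f' h)
  obtain ⟨t₀, ht₀, hF⟩ := exists_point hU hc hne F (by
    rintro (p | p | p)
    · exact hf p.1 p.2
    · exact hf' p
    · exact hh p) (by
    rintro (p | p | p)
    · exact hfs p.1 p.2
    · exact hfs' p
    · exact hhs p)
  refine ⟨t₀, ht₀, fun i => ?_, ?_⟩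
  · refine hht i t₀ ht₀ (hF (Sum.inr (Sum.inr i))) ?_
    exact hft i t₀ ht₀ fun p => hF (Sum.inl ⟨i, p⟩)
  · exact hft' t₀ ht₀ fun p => hF (Sum.inr (Sum.inl p))

end Pool.Agent.TH504.VY
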