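import Mathlib
import Pool.Agent.TH131.GHC.Ind5
import Pool.Agent.TH131.GHC.Rel7

/-!
# A single class on the product of a family of abelian varieties and a variety

The first theorem is the argument of `Pool/Agent/TH131/GHC/Ind4.lean` for one rational subspace.
-/

set_option linter.unusedSectionVars false

namespace Pool.Agent.TH504.VY

open Matrix Equiv Module Pool.Agent.H204R3.SP Pool.Agent.H204R3.CM Pool.Agent.W437.HC
  Pool.Agent.W437.HD Pool.Agent.W437.HP Pool.Agent.W437.HR Pool.Agent.W548.Odd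
  Pool.Agent.TH125.Small Pool.Agent.TH131.GHC

noncomputable section

section gen

variable {ι : Type} [Fintype ι] [DecidableEq ι] {g : ι → ℕ}
  (Z : ∀ i, Matrix (Fin (g i)) (Fin (g i)) ℂ) {C : Type*} [Fintype C] [DecidableEq C]

/-- A rational subspace which is stable under the sum of the Hodge operators, for the given member
and, for each factor, a member at which this factor is different, is stable under the first Hodge
operator. -/
theorem stable_of_moving (hZ : ∀ i, (Z i)ᵀ = Z i) (hpos : ∀ i, (imM (Z i)).PosDef)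
    (hp : ∀ i, HasPcs (DZ (Z i))) (hs : ∀ i, IsSimpleAV (Z i)) {D' : Matrix C C ℂ} {n : ℕ}
    {V : Submodule ℚ ((Fin n → Fin (NB g) ⊕ Fin (NB g)) × C → ℚ)}
    (hV : ∀ z ∈ cxX V, opD (Fin n) C (DZ (bigD ℂ Z)) z +
        opW (Fin n) (Fin (NB g) ⊕ Fin (NB g)) D' z ∈ cxX V)
    (hgen : ∀ i, ∃ Z' : ∀ i, Matrix (Fin (g i)) (Fin (g i)) ℂ, (∀ i, (Z' i)ᵀ = Z' i) ∧
        (∀ i, (imM (Z' i)).PosDef) ∧ DZ (bigD ℂ Z') ∈ lieM (DZ (bigD ℂ Z)) ℂ ∧
        (∀ z ∈ cxX V, opD (Fin n) C (DZ (bigD ℂ Z')) z +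
          opW (Fin n) (Fin (NB g) ⊕ Fin (NB g)) D' z ∈ cxX V) ∧ Z' i ≠ Z i) :
    ∀ z ∈ cxX V, opD (Fin n) C (DZ (bigD ℂ Z)) z ∈ cxX V := by
  have h : PolH (DZ (bigD ℂ Z)) := polOf (bigD_symm hZ) (imM_bigD_posDef Z hpos)
  have hS : Simp (DZ (bigD ℂ Z)) := simp_prod Z hZ hpos hp
  have hbl := fun i X hX => exists_bl Z hZ hpos i (X := X) hX
  have hpT := pmT_DZ Z hZ hpos
  obtain ⟨D, hDdef⟩ : ∃ D, D = DZ (bigD ℂ Z) := ⟨_, rfl⟩
  rw [← hDdef] at h hS hV hbl hpT ⊢
  have hk : GalD D (stb D V) := stb_galD hV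
  -- the vectors killed by the algebra
  let C0 : Submodule ℂ (Fin (NB g) ⊕ Fin (NB g) → ℂ) :=
    { carrier := {v | ∀ X ∈ stb D V, X *ᵥ v = 0}
      zero_mem' := fun X _ => mulVec_zero _
      add_mem' := fun {x y} hx hy X hX => by rw [mulVec_add, hx X hX, hy X hX, add_zero]
      smul_mem' := fun r x hx X hX => by rw [mulVec_smul, hx X hX, smul_zero] }
  have hblk : ∀ i, ∀ v : Fin (g i) ⊕ Fin (g i) → ℂ, (cK ℂ (pm g ℚ i))ᵀ *ᵥ v ∈ C0 → v = 0 := by
    intro i
    let Ci : Submodule ℂ (Fin (g i) ⊕ Fin (g i) → ℂ) := C0.comap (mulVecLin (cK ℂ (pm g ℚ i))ᵀ)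
    have hCi : ∀ v, v ∈ Ci ↔ ∀ X ∈ stb D V, X *ᵥ ((cK ℂ (pm g ℚ i))ᵀ *ᵥ v) = 0 :=
      fun v => Iff.rfl
    have hbot : Ci = ⊥ := by
      by_contra hne
      have htop := stable_eq_top ((hpos i).isUnit.map Matrix.detMonoidHom) (hs i) Ci ?_ ?_ hne
      · obtain ⟨Z', hZ', hpos', hm, hst, hneq⟩ := hgen i
        rw [← hDdef] at hm
        apply hneq
        refine DZ_inj ((hpos' i).isUnit.map Matrix.detMonoidHom)
          ((hpos i).isUnit.map Matrix.detMonoidHom) ?_
        have h1 : DZ (bigD ℂ Z') - D ∈ stb D V := by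
          refine ⟨Submodule.sub_mem _ hm (D_mem D), fun z hz => ?_⟩
          have h2 := Submodule.sub_mem _ (hst z hz) (hV z hz)
          have h3 : opD (Fin n) C (DZ (bigD ℂ Z') - D) z = opD (Fin n) C (DZ (bigD ℂ Z')) z -
              opD (Fin n) C D z := by
            rw [sub_eq_add_neg, opD_add, ← neg_one_smul ℂ D, opD_smul, neg_one_smul,
              ← sub_eq_add_neg]
          rw [h3]
          rwa [add_sub_add_right_eq_sub] at h2
        have h2 : (DZ (bigD ℂ Z') - D) * (cK ℂ (pm g ℚ i))ᵀ = 0 := by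
          ext x y
          have h3 : (Pi.single y 1 : Fin (g i) ⊕ Fin (g i) → ℂ) ∈ Ci := by
            rw [htop]
            trivial
          rw [hCi] at h3
          have h4 := congrFun (h3 _ h1) x
          rw [mulVec_mulVec, mulVec_single_one] at h4
          exact h4
        rw [Matrix.sub_mul, pmT_DZ Z' hZ' hpos', hpT, ← Matrix.mul_sub] at h2
        have h3 : cK ℂ (pm g ℚ i) * ((cK ℂ (pm g ℚ i))ᵀ * (DZ (Z' i) - DZ (Z i))) = 0 := by
          rw [h2, Matrix.mul_zero]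
        rw [← Matrix.mul_assoc, pm_sameC, Matrix.one_mul, sub_eq_zero] at h3
        exact h3
      · intro σ v hv
        rw [hCi] at hv ⊢
        intro X hX
        have h1 := hv _ (hk.gal σ.symm X hX)
        funext x
        have h2 := congrArg σ (congrFun h1 x)
        rw [Pi.zero_apply, map_zero] at h2
        rw [Pi.zero_apply, ← h2]
        simp [mulVec, dotProduct, cK, map_sum]
      · intro v hv
        rw [hCi] at hv ⊢
        intro X hX
        have h1 : (cK ℂ (pm g ℚ i))ᵀ *ᵥ (DZ (Z i) *ᵥ v) = D *ᵥ ((cK ℂ (pm g ℚ i))ᵀ *ᵥ v) := by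
          rw [mulVec_mulVec, mulVec_mulVec, hpT]
        rw [h1, mulVec_mulVec]
        have h2 : X * D = D * X + (X * D - D * X) := by abel
        have h3 : X * D - D * X ∈ stb D V := h.ideal hk hX (D_mem D)
        rw [h2, add_mulVec, ← mulVec_mulVec, hv X hX, mulVec_zero, hv _ h3, add_zero]
    intro v hv
    have h1 : v ∈ Ci := hv
    rwa [hbot, Submodule.mem_bot] at h1
  have hC0 : ∀ v ∈ C0, v = 0 := by
    intro v hv
    have h1 : v = ∑ i, (cK ℂ (pm g ℚ i))ᵀ *ᵥ (cK ℂ (pm g ℚ i) *ᵥ v) := by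
      conv_lhs => rw [← one_mulVec v, ← pm_totC, sum_mulVec]
      exact Finset.sum_congr rfl fun i _ => (mulVec_mulVec _ _ _).symm
    rw [h1]
    refine Finset.sum_eq_zero fun i _ => ?_
    rw [hblk i (cK ℂ (pm g ℚ i) *ᵥ v), mulVec_zero]
    intro X hX
    obtain ⟨Y, -, h2, h3⟩ := hbl i X hX.1
    rw [mulVec_mulVec, h2, ← mulVec_mulVec, mulVec_mulVec _ Y, ← h3,
      ← mulVec_mulVec _ (cK ℂ (pm g ℚ i)), hv X hX, mulVec_zero, mulVec_zero]
  -- the complement is zero
  obtain ⟨D1, hD1, hD2⟩ := h.cmpl_sum hk (D_mem D)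
  have hc := h.cmpl_galD hk
  have h5 : D - D1 = 0 := by
    have h6 : ∀ v, (D - D1) *ᵥ v = 0 := by
      intro v
      apply hC0
      intro X hX
      rw [mulVec_mulVec, hS (stb D V) (cmpl D (stb D V)) hk.le hc.le
        (fun X hX Y hY => h.ideal hk hX hY) (fun X hX Y hY => h.ideal hc hX hY)
        (fun X hX Y hY => h.cmpl_bracket hk hX hY) X hX _ hD2, zero_mulVec]
    ext x y
    have h7 := congrFun (h6 (Pi.single y 1)) x
    rw [mulVec_single_one] at h7
    exact h7
  rw [sub_eq_zero] at h5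
  intro z hz
  have h1 := hD1.2 z hz
  rwa [← h5] at h1

end gen

section single

variable {B : Type*} [Fintype B] [DecidableEq B] {C : Type*} [Fintype C] [DecidableEq C]
  {κ : Type*} [Fintype κ] [DecidableEq κ] {D : Matrix B B ℂ}

/-- The complexification of a line. -/
theorem mem_cxX_span {X : Type*} [Fintype X] [DecidableEq X] {x : X → ℚ} {z : X → ℂ}
    (hz : z ∈ cxX (Submodule.span ℚ {x})) : ∃ r : ℂ, z = r • cstX x := by
  have h1 : cxX (Submodule.span ℚ {x}) ≤ Submodule.span ℂ {cstX x} := by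
    refine cxX_le fun s hs => ?_
    obtain ⟨r, rfl⟩ := Submodule.mem_span_singleton.1 hs
    rw [cstX_smul]
    exact Submodule.smul_mem _ _ (Submodule.mem_span_singleton_self _)
  obtain ⟨r, hr⟩ := Submodule.mem_span_singleton.1 (h1 hz)
  exact ⟨r, hr.symm⟩

/-- A rational tensor which is an eigenvector of the Hodge operator is killed by it. -/
theorem opD_eq_zero (hD : D * D = 1) (hDc : D.map (starRingEnd ℂ) = -D)
    {x : (κ → B) × C → ℚ} (hx : opD κ C D (cstX x) ∈ cxX (Submodule.span ℚ {x})) :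
    opD κ C D (cstX x) = 0 := by
  obtain ⟨μ, hμ⟩ := mem_cxX_span hx
  by_cases h0 : cstX x = 0
  · rw [h0, map_zero]
  obtain ⟨a, rfl⟩ := eig_int hD hμ h0
  have h1 := opD_aut (κ := κ) (C := C) Complex.conjAe.toRingEquiv D (cstX x)
  have h2 : D.map Complex.conjAe.toRingEquiv = -D := hDc
  have h3 : (fun p => Complex.conjAe.toRingEquiv (cstX x p)) = cstX x := by
    funext p
    exact map_ratCast Complex.conjAe.toRingEquiv (x p)
  have h4 : (fun p => Complex.conjAe.toRingEquiv (opD κ C D (cstX x) p)) = (a : ℂ) • cstX x := by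
    rw [hμ]
    funext p
    have h5 := congrFun h3 p
    simp only [Pi.smul_apply, smul_eq_mul, map_mul] at h5 ⊢
    rw [h5, map_intCast]
  rw [h2, h3, h4] at h1
  have h5 : opD κ C (-D) (cstX x) = -opD κ C D (cstX x) := by
    rw [← neg_one_smul ℂ D, opD_smul, neg_one_smul]
  rw [h5, hμ] at h1
  have h6 : (2 : ℂ) • ((a : ℂ) • cstX x) = 0 := by
    rw [two_smul]
    nth_rewrite 1 [h1]
    rw [neg_add_cancel]
  rw [hμ]
  exact (smul_eq_zero.1 h6).resolve_left two_ne_zero

end single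

end

end Pool.Agent.TH504.VY
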