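import Mathlib
import Pool.Agent.TH504.VY.Stab
import Pool.Agent.TH504.VY.Fr1
import Pool.Agent.TH504.VY.Rich

/-!
# Hodge classes on the product of a family of abelian varieties and a variety
-/

set_option linter.unusedSectionVars false

namespace Pool.Agent.TH504.VY

open Matrix Equiv Module Pool.Agent.H204R3.SP Pool.Agent.H204R3.CM Pool.Agent.H194R3.CM
  Pool.Agent.W437.HC Pool.Agent.W437.HD Pool.Agent.W437.HP Pool.Agent.W437.HR
  Pool.Agent.W548.Odd Pool.Agent.TH125.Small Pool.Agent.TH131.GHC Pool.Agent.TH504.VL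

noncomputable section



variable {n d : ℕ} {g : Fin n → ℕ}

/-- A very general point. -/
structure VeryGood (U : Set (Fin d → ℂ))
    (Z : ∀ i, (Fin d → ℂ) → Matrix (Fin (g i)) (Fin (g i)) ℂ) (t₀ : Fin d → ℂ) : Prop where
  mem : t₀ ∈ U
  symm : ∀ t ∈ U, ∀ i, (Z i t)ᵀ = Z i t
  pos : ∀ t ∈ U, ∀ i, (imM (Z i t)).PosDef
  pcs : ∀ i, HasPcs (DZ (Z i t₀))
  lie : ∀ s ∈ U, DZ (bigD ℂ (fun i => Z i s)) ∈ lieM (DZ (bigD ℂ (fun i => Z i t₀))) ℂ
  sim : ∀ i, IsSimpleAV (Z i t₀)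
  mov : ∀ i, ∃ s ∈ U, Z i s ≠ Z i t₀

/-- Moving families have very general points. -/
theorem exists_veryGood {U : Set (Fin d → ℂ)} (hU : IsOpen U) (hc : IsPreconnected U)
    (hne : U.Nonempty) (Z : ∀ i, (Fin d → ℂ) → Matrix (Fin (g i)) (Fin (g i)) ℂ)
    (hmov : ∀ i, IsMovingFamily U (Z i)) : ∃ t₀, VeryGood U Z t₀ := by
  obtain ⟨t₀, ht₀, hp, hb⟩ := exists_point_pcs hU hc hne Z hmov
  have hsymm : ∀ t ∈ U, ∀ i, (Z i t)ᵀ = Z i t := fun t ht i => ((hmov i).2.1 t ht).1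
  have hpos : ∀ t ∈ U, ∀ i, (imM (Z i t)).PosDef := fun t ht i => ((hmov i).2.1 t ht).2
  refine ⟨t₀, ht₀, hsymm, hpos, hp, hb, fun i => ?_, fun i => moving_nonconst hU (hmov i) t₀ ht₀⟩
  obtain ⟨s, hs, hsim⟩ := (hmov i).2.2.1
  refine simple_of_mem (hsymm t₀ ht₀ i) (hpos t₀ ht₀ i) (hpos s hs i) ?_ hsim
  obtain ⟨Y, hY, h1, -⟩ := exists_bl (fun i => Z i t₀) (hsymm t₀ ht₀) (hpos t₀ ht₀) i (hb s hs)
  have h2 := pmT_DZ (fun i => Z i s) (hsymm s hs) (hpos s hs) i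
  rw [h1] at h2
  have h3 : cK ℂ (pm g ℚ i) * ((cK ℂ (pm g ℚ i))ᵀ * Y) =
      cK ℂ (pm g ℚ i) * ((cK ℂ (pm g ℚ i))ᵀ * DZ (Z i s)) := by rw [h2]
  rw [← Matrix.mul_assoc, ← Matrix.mul_assoc, pm_sameC, Matrix.one_mul, Matrix.one_mul] at h3
  rw [← h3]
  exact hY

variable {U : Set (Fin d → ℂ)} {Z : ∀ i, (Fin d → ℂ) → Matrix (Fin (g i)) (Fin (g i)) ℂ}
  {t₀ : Fin d → ℂ} {v : ℕ}

/-- The coordinates of the components of a class. -/
def cfP (g : Fin n → ℕ) {k : ℕ} (f : (∀ i, Fin (g i) ⊕ Fin (g i) → ℚ) [⋀^Fin k]→ₗ[ℚ] (Fin v → ℚ)) :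
    (Fin k → Fin (NB g) ⊕ Fin (NB g)) × Fin v → ℚ :=
  fun p => f (fun l => sP g (Pi.single (p.1 l) 1)) p.2

/-- The coordinates of a Hodge class are killed by the sum of the Hodge operators. -/
theorem total_zero {Z : ∀ i, Matrix (Fin (g i)) (Fin (g i)) ℂ} (hpos : ∀ i, (imM (Z i)).PosDef)
    (V : Coh v) {F : HAZ (∀ i, Fin (g i) ⊕ Fin (g i) → ℚ) v}
    (hF : ∃ Φ, Extends (perProd Z) F Φ ∧ HasType V 0 Φ) (k : ℕ) :
    opD (Fin k) (Fin v) (DZ (bigD ℂ Z)) (cstX (cfP g (F k))) +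
      opW (Fin k) (Fin (NB g) ⊕ Fin (NB g)) V.z (cstX (cfP g (F k))) = 0 := by
  obtain ⟨Φ, h1, h2⟩ := hF
  have h3 := (frame1 Z hpos).thC_type (D := DZ (bigD ℂ Z)) rfl V (fun _ : Fin k => ()) h2
  have h4 := (frame1 Z hpos).thC_of_ext (fun _ : Fin k => ()) (h1 k)
  have h5 : (frame1 Z hpos).cfC (fun _ : Fin k => ()) (F k) = cfP g (F k) := rfl
  rw [h4, h5, Int.cast_zero, zero_smul] at h3
  exact h3

/-- The coordinates of a class which is a Hodge class for all members are killed by the first Hodge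
operator of the very general member. -/
theorem VeryGood.opD_zero (h : VeryGood U Z t₀) (V : Coh v)
    {F : HAZ (∀ i, Fin (g i) ⊕ Fin (g i) → ℚ) v}
    (hF : ∀ t ∈ U, ∃ Φ, Extends (perProd (fun i => Z i t)) F Φ ∧ HasType V 0 Φ) (k : ℕ) :
    opD (Fin k) (Fin v) (DZ (bigD ℂ (fun i => Z i t₀))) (cstX (cfP g (F k))) = 0 := by
  have h1 : ∀ t ∈ U, ∀ z ∈ cxX (Submodule.span ℚ {cfP g (F k)}),
      opD (Fin k) (Fin v) (DZ (bigD ℂ (fun i => Z i t))) z +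
        opW (Fin k) (Fin (NB g) ⊕ Fin (NB g)) V.z z ∈ cxX (Submodule.span ℚ {cfP g (F k)}) := by
    intro t ht z hz
    obtain ⟨r, rfl⟩ := mem_cxX_span hz
    rw [map_smul, map_smul, ← smul_add, total_zero (h.pos t ht) V (hF t ht) k, smul_zero]
    exact Submodule.zero_mem _
  have h2 := stable_of_moving (fun i => Z i t₀) (h.symm t₀ h.mem) (h.pos t₀ h.mem) h.pcs h.sim
    (h1 t₀ h.mem) (fun i => by
      obtain ⟨s, hs, hne⟩ := h.mov i
      exact ⟨fun i => Z i s, h.symm s hs, h.pos s hs, h.lie s hs, h1 s hs, hne⟩)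
  refine opD_eq_zero (DZ_sq ((imM_bigD_posDef _ (h.pos t₀ h.mem)).isUnit.map
    Matrix.detMonoidHom)) (DZ_conj _) (h2 _ (cstX_mem (Submodule.mem_span_singleton_self _)))

/-- The coordinates of a class which is a Hodge class for all members are killed by the second
Hodge operator. -/
theorem VeryGood.opW_zero (h : VeryGood U Z t₀) (V : Coh v)
    {F : HAZ (∀ i, Fin (g i) ⊕ Fin (g i) → ℚ) v}
    (hF : ∀ t ∈ U, ∃ Φ, Extends (perProd (fun i => Z i t)) F Φ ∧ HasType V 0 Φ) (k : ℕ) :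
    opW (Fin k) (Fin (NB g) ⊕ Fin (NB g)) V.z (cstX (cfP g (F k))) = 0 := by
  have h1 := total_zero (h.pos t₀ h.mem) V (hF t₀ h.mem) k
  rwa [h.opD_zero V hF k, zero_add] at h1

/-- The coordinates of a class which is a Hodge class for all members are killed by the first Hodge
operators. -/
theorem VeryGood.opD_zero' (h : VeryGood U Z t₀) (V : Coh v)
    {F : HAZ (∀ i, Fin (g i) ⊕ Fin (g i) → ℚ) v}
    (hF : ∀ t ∈ U, ∃ Φ, Extends (perProd (fun i => Z i t)) F Φ ∧ HasType V 0 Φ) (k : ℕ)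
    {t : Fin d → ℂ} (ht : t ∈ U) :
    opD (Fin k) (Fin v) (DZ (bigD ℂ (fun i => Z i t))) (cstX (cfP g (F k))) = 0 := by
  have h1 := total_zero (h.pos t ht) V (hF t ht) k
  rwa [h.opW_zero V hF k, add_zero] at h1

end

end Pool.Agent.TH504.VY
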