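import Mathlib
import Pool.Agent.TH504.VY.Good
import Pool.Agent.TH504.VY.Defs
import Pool.Agent.TH504.VY.Dual
import Pool.Agent.TH125.VhcMain

/-!
# Flat Hodge classes on a family of abelian varieties
-/

set_option linter.unusedSectionVars false

namespace Pool.Agent.TH504.VY

open Matrix Equiv Module Pool.Agent.H204R3.SP Pool.Agent.H204R3.CM Pool.Agent.H194R3.CM
  Pool.Agent.W437.HC Pool.Agent.W437.HD Pool.Agent.W437.HP Pool.Agent.W437.HR
  Pool.Agent.W548.Odd Pool.Agent.TH125.Small Pool.Agent.TH131.GHC Pool.Agent.TH504.VL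
  Pool.Agent.W546.GHC

noncomputable section

section hl

variable {B : Type*} [Fintype B] [DecidableEq B] {κ : Type*} [Fintype κ] [DecidableEq κ]
  {D : Matrix B B ℂ}

/-- The line spanned by a Hodge tensor. -/
theorem HL_span {c : (κ → B) → ℚ} (hc : IsH D c) : HL D 0 (Submodule.span ℚ {c}) := by
  intro x hx
  refine Submodule.mem_iSup_of_mem (⟨0, by simp⟩ : {a : ℤ // |a| ≤ 0}) ⟨cst_mem_cx hx, ?_⟩
  change act D (cst ℂ x) = ((0 : ℤ) : ℂ) • cst ℂ x
  obtain ⟨r, rfl⟩ := Submodule.mem_span_singleton.1 hx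
  have h1 : cst ℂ (r • c) = (r : ℂ) • cst ℂ c := by
    funext I
    simp [cst]
  rw [h1, act_smul_right, show act D (cst ℂ c) = 0 from hc, smul_zero, Int.cast_zero, zero_smul]

/-- There are no Hodge tensors of odd degree. -/
theorem isH_odd (hD : D * D = 1) {c : (κ → B) → ℚ} (hc : IsH D c) (hodd : Odd (Fintype.card κ)) :
    c = 0 := by
  apply cst_injective (K := ℂ)
  rw [cst_zero]
  refine eq_of_eig hD fun x ε hε hx => ?_
  rw [evalF_zero]
  by_contra h0
  have h1 := evalF_eig (D := D) (a := 0) (c := cst ℂ c) (by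
    rw [mem_eigF, Int.cast_zero, zero_smul]
    exact hc) x ε hx h0
  have h2 : ∀ s : Finset κ, (∑ k ∈ s, ε k) % 2 = (s.card : ℤ) % 2 := by
    intro s
    induction s using Finset.induction_on with
    | empty => simp
    | insert a s ha ih =>
      rw [Finset.sum_insert ha, Finset.card_insert_of_notMem ha]
      push_cast
      rcases hε a with h | h
      · rw [h]
        omega
      · rw [h]
        omega
  have h3 := h2 Finset.univ
  rw [← h1, Finset.card_univ] at h3
  obtain ⟨m, hm⟩ := hodd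
  omega

end hl

variable {n d : ℕ} {g : Fin n → ℕ} {U : Set (Fin d → ℂ)}
  {Z : ∀ i, (Fin d → ℂ) → Matrix (Fin (g i)) (Fin (g i)) ℂ} {t₀ : Fin d → ℂ}

/-- The basis of the homology. -/
def EE (g : Fin n → ℕ) : Fin (NB g) ⊕ Fin (NB g) → (∀ i, Fin (g i) ⊕ Fin (g i) → ℚ) :=
  fun i => sP g (Pi.single i 1)

/-- A form is given by its coordinates. -/
theorem expand1 {κ : Type} [Fintype κ] [DecidableEq κ]
    (hpos : ∀ i, (imM (Z i t₀)).PosDef)
    (f : (∀ i, Fin (g i) ⊕ Fin (g i) → ℚ) [⋀^κ]→ₗ[ℚ] ℚ) :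
    (fun w => f w) = (frame1 (fun i => Z i t₀) hpos).pf (fun _ : κ => ()) (cfE (EE g) f) := by
  funext w
  rw [(frame1 (fun i => Z i t₀) hpos).expand f w, Fintype.sum_unique]
  rfl

/-- The basis of the homology. -/
def basisP (g : Fin n → ℕ) : Basis (Fin (NB g) ⊕ Fin (NB g)) ℚ (∀ i, Fin (g i) ⊕ Fin (g i) → ℚ) :=
  Basis.ofEquivFun (eP g)

theorem basisP_apply (g : Fin n → ℕ) (i : Fin (NB g) ⊕ Fin (NB g)) : basisP g i = EE g i := by
  unfold basisP
  rw [Basis.coe_ofEquivFun]
  rfl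

theorem cfE_inj {κ : Type} [Fintype κ] [DecidableEq κ]
    (f : (∀ i, Fin (g i) ⊕ Fin (g i) → ℚ) [⋀^κ]→ₗ[ℚ] ℚ) (h : cfE (EE g) f = 0) : f = 0 := by
  have h1 : f.toMultilinearMap = 0 := by
    refine Basis.ext_multilinear (fun _ => basisP g) fun I => ?_
    simp only [basisP_apply]
    exact congrFun h I
  exact AlternatingMap.coe_multilinearMap_injective h1

theorem polOf_Om {m : ℕ} {M : Matrix (Fin m) (Fin m) ℂ} (hM : Mᵀ = M) (hpos : (imM M).PosDef) :
    (polOf hM hpos).Om = Om m ℚ := rfl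

/-- Forms with Hodge coordinates at a very general point are combinations of products of Hodge
classes of degree two, for all members. -/
theorem VeryGood.mem_span (h : VeryGood U Z t₀) {k : ℕ}
    {f : (∀ i, Fin (g i) ⊕ Fin (g i) → ℚ) [⋀^Fin k]→ₗ[ℚ] ℚ}
    (hf : IsH (DZ (bigD ℂ (fun i => Z i t₀))) (cfE (EE g) f)) {t : Fin d → ℂ} (ht : t ∈ U) :
    f ∈ divisorSpan (perProd (fun i => Z i t)) k := by
  classical
  have hZ := h.symm t₀ h.mem
  have hpos := h.pos t₀ h.mem
  have hpol : PolH (DZ (bigD ℂ (fun i => Z i t₀))) :=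
    polOf (bigD_symm hZ) (imM_bigD_posDef _ hpos)
  by_cases hk : Odd k
  · have h1 : cfE (EE g) f = 0 := isH_odd hpol.dd hf (by rwa [Fintype.card_fin])
    rw [cfE_inj f h1]
    exact Submodule.zero_mem _
  obtain ⟨r, hr⟩ := Nat.not_odd_iff_even.1 hk
  have hIJ : cfE (EE g) f ∈ IJ (DZ (bigD ℂ (fun i => Z i t₀))) r (Fin k) :=
    le_IJ hpol (coreP_prod _ hZ hpos h.pcs) (fun _ c hc => mem_MS_prod _ hZ hpos h.pcs c hc) r
      (Fin k) 0 _ (HL_span hf) (by rw [Fintype.card_fin]; omega)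
      (Submodule.mem_span_singleton_self _)
  have h2 := (frame1 (fun i => Z i t₀) hpos).pf_mem (D := DZ (bigD ℂ (fun i => Z i t₀))) rfl
    (JR_sq ((imM_bigD_posDef _ hpos).isUnit.map Matrix.detMonoidHom)) r (Fin k) (fun _ => ()) _ hIJ
  have h3 := alt_SJ f (by rw [expand1 (Z := Z) (t₀ := t₀) hpos f]; exact h2)
  refine (Submodule.span_le.2 ?_) h3
  rintro F ⟨k', e, B, η, hB, hF⟩
  have hk' : k' = 0 := by
    have h4 := Fintype.card_congr e
    simp only [Fintype.card_sum, Fintype.card_prod, Fintype.card_fin] at h4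
    omega
  subst hk'
  have h5 : F = (η (fun r => r.elim0)) • ((η (fun r => r.elim0))⁻¹ • F) ∨ F = 0 := by
    by_cases h0 : η (fun r => r.elim0) = 0
    · right
      ext w
      rw [hF w]
      refine Finset.sum_eq_zero fun σ _ => ?_
      have h6 : η (fun r => w (σ (e (Sum.inr r)))) = η (fun r => r.elim0) :=
        congrArg η (funext fun r => r.elim0)
      rw [h6, h0, mul_zero, mul_zero]
    · left
      rw [smul_smul, mul_inv_cancel₀ h0, one_smul]
  rcases h5 with h5 | h5
  · by_cases h0 : η (fun r => r.elim0) = 0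
    · rw [h5, h0, zero_smul]
      exact Submodule.zero_mem _
    rw [h5]
    refine Submodule.smul_mem _ _ (Submodule.subset_span ?_)
    refine ⟨r, (Equiv.sumEmpty (Fin r × Fin 2) (Fin 0)).symm.trans e, B, fun l => ?_,
      fun w => ?_⟩
    · exact Pool.Agent.TH125.isHodge_transport (Z := fun i => Z i t₀) (Z' := fun i => Z i t) hpos
        (h.pos t ht) (h.lie t ht) (n := n) (fun i => i) (hB l)
    · rw [AlternatingMap.smul_apply, hF w, smul_eq_mul, Finset.mul_sum]
      refine Finset.sum_congr rfl fun σ _ => ?_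
      have h6 : η (fun r => w (σ (e (Sum.inr r)))) = η (fun r => r.elim0) :=
        congrArg η (funext fun r => r.elim0)
      rw [h6]
      have h7 : ∀ P : ℚ, (η (fun r => r.elim0))⁻¹ * (((Perm.sign σ : ℤ) : ℚ) *
          (P * η (fun r => r.elim0))) = ((Perm.sign σ : ℤ) : ℚ) * P := by
        intro P
        field_simp
      exact h7 _
  · rw [h5]
    exact Submodule.zero_mem _

end

end Pool.Agent.TH504.VY
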