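import Mathlib
import Pool.Agent.TH504.VY.Flat

/-!
# The variational Hodge conjecture for the product of a family of abelian varieties and a variety
-/

set_option linter.unusedSectionVars false

namespace Pool.Agent.TH504.VY

open Matrix Equiv Module Pool.Agent.H204R3.SP Pool.Agent.H204R3.CM Pool.Agent.H194R3.CM
  Pool.Agent.W437.HC Pool.Agent.W437.HD Pool.Agent.W437.HP Pool.Agent.W437.HR
  Pool.Agent.W548.Odd Pool.Agent.TH125.Small Pool.Agent.TH131.GHC Pool.Agent.TH504.VL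
  Pool.Agent.W546.GHC

noncomputable section

section alg

variable {B : Type} [Fintype B] [DecidableEq B] {W : Type} [AddCommGroup W] [Module ℚ W]
  (E : B → W) {v : ℕ}

/-- The forms whose coordinates are Hodge tensors for all given Hodge structures. -/
def HH {X : Type} (D : X → Matrix B B ℂ) (k : ℕ) : Submodule ℚ (W [⋀^Fin k]→ₗ[ℚ] ℚ) where
  carrier := {f | ∀ x, IsH (D x) (cfE E f)}
  zero_mem' := by
    intro x
    change act (D x) (cst ℂ (cfE E 0)) = 0
    have h1 : cst ℂ (cfE E (0 : W [⋀^Fin k]→ₗ[ℚ] ℚ)) = 0 := by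
      funext I
      simp [cst, cfE]
    rw [h1, act_zero_right]
  add_mem' := by
    intro f f' hf hf' x
    change act (D x) (cst ℂ (cfE E (f + f'))) = 0
    have h1 : cst ℂ (cfE E (f + f')) = cst ℂ (cfE E f) + cst ℂ (cfE E f') := by
      funext I
      simp [cst, cfE]
    rw [h1, act_add_right, show act (D x) (cst ℂ (cfE E f)) = 0 from hf x,
      show act (D x) (cst ℂ (cfE E f')) = 0 from hf' x, add_zero]
  smul_mem' := by
    intro r f hf x
    change act (D x) (cst ℂ (cfE E (r • f))) = 0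
    have h1 : cst ℂ (cfE E (r • f)) = (r : ℂ) • cst ℂ (cfE E f) := by
      funext I
      simp [cst, cfE]
    rw [h1, act_smul_right, show act (D x) (cst ℂ (cfE E f)) = 0 from hf x, smul_zero]

theorem wedgeW_add_left {k j : ℕ} (f f' : W [⋀^Fin k]→ₗ[ℚ] ℚ) (β : W [⋀^Fin j]→ₗ[ℚ] ℚ)
    (y : Fin k ⊕ Fin j → W) : wedgeW (f + f') β y = wedgeW f β y + wedgeW f' β y := by
  rw [wedgeW_apply, wedgeW_apply, wedgeW_apply, ← Finset.sum_add_distrib]
  refine Finset.sum_congr rfl fun σ _ => ?_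
  rw [AlternatingMap.add_apply, add_mul, smul_add]

theorem wedgeW_add_right {k j : ℕ} (f : W [⋀^Fin k]→ₗ[ℚ] ℚ) (β β' : W [⋀^Fin j]→ₗ[ℚ] ℚ)
    (y : Fin k ⊕ Fin j → W) : wedgeW f (β + β') y = wedgeW f β y + wedgeW f β' y := by
  rw [wedgeW_apply, wedgeW_apply, wedgeW_apply, ← Finset.sum_add_distrib]
  refine Finset.sum_congr rfl fun σ _ => ?_
  rw [AlternatingMap.add_apply, mul_add, smul_add]

theorem wedgeW_smul_left {k j : ℕ} (r : ℚ) (f : W [⋀^Fin k]→ₗ[ℚ] ℚ) (β : W [⋀^Fin j]→ₗ[ℚ] ℚ)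
    (y : Fin k ⊕ Fin j → W) : wedgeW (r • f) β y = r * wedgeW f β y := by
  rw [wedgeW_apply, wedgeW_apply, Finset.mul_sum]
  refine Finset.sum_congr rfl fun σ _ => ?_
  rw [AlternatingMap.smul_apply, smul_eq_mul, zsmul_eq_mul, zsmul_eq_mul]
  ring

theorem wedgeW_smul_right {k j : ℕ} (r : ℚ) (f : W [⋀^Fin k]→ₗ[ℚ] ℚ) (β : W [⋀^Fin j]→ₗ[ℚ] ℚ)
    (y : Fin k ⊕ Fin j → W) : wedgeW f (r • β) y = r * wedgeW f β y := by
  rw [wedgeW_apply, wedgeW_apply, Finset.mul_sum]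
  refine Finset.sum_congr rfl fun σ _ => ?_
  rw [AlternatingMap.smul_apply, smul_eq_mul, zsmul_eq_mul, zsmul_eq_mul]
  ring

theorem fibreIntegral_apply {k j : ℕ} (e : Basis (Fin k ⊕ Fin j) ℚ W) (F : HAZ W v)
    (β : W [⋀^Fin j]→ₗ[ℚ] ℚ) (b : Fin v) :
    fibreIntegral e F β b = wedgeW (cmp b (F k)) β e := by
  unfold fibreIntegral
  rw [Finset.sum_apply, wedgeW_apply]
  refine Finset.sum_congr rfl fun σ _ => ?_
  rw [Pi.smul_apply, Pi.smul_apply, smul_eq_mul, cmp_apply, mul_comm (β _)]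

/-- Reproduction of a class from its integrals. -/
theorem reproduce {X : Type} [Nonempty X] {D : X → Matrix B B ℂ} (h : ∀ x, PolH (D x))
    (hOm : ∀ x y, (h x).Om = (h y).Om)
    (hE : ∀ {κ : Type} [Fintype κ] [DecidableEq κ] (f : W [⋀^κ]→ₗ[ℚ] ℚ), cfE E f = 0 → f = 0)
    {k j : ℕ} (hcard : k + j = Fintype.card B) (e : Basis (Fin k ⊕ Fin j) ℚ W) (F : HAZ W v)
    (hF : ∀ b, cmp b (F k) ∈ HH E D k) {P : Submodule ℚ (HAZ W v)}
    (hP : ∀ f ∈ HH E D k, ∀ β ∈ HH E D j, cross f (fibreIntegral e F β) ∈ P) :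
    (Pi.single k (F k) : HAZ W v) ∈ P := by
  classical
  have hfin : FiniteDimensional ℚ (HH E D k) := by
    let T : HH E D k →ₗ[ℚ] ((Fin k → B) → ℚ) :=
      { toFun := fun f => cfE E f.1
        map_add' := fun f f' => rfl
        map_smul' := fun r f => rfl }
    refine FiniteDimensional.of_injective T fun f f' hff => ?_
    apply Subtype.ext
    have h1 : cfE E (f.1 - f'.1) = 0 := by
      funext I
      have h2 := congrFun hff I
      change f.1 _ - f'.1 _ = 0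
      exact sub_eq_zero.2 h2
    exact sub_eq_zero.1 (hE _ h1)
  let Bp : HH E D j →ₗ[ℚ] HH E D k →ₗ[ℚ] ℚ := LinearMap.mk₂ ℚ
    (fun β f => wedgeW f.1 β.1 e)
    (fun β β' f => wedgeW_add_right _ _ _ _)
    (fun r β f => wedgeW_smul_right _ _ _ _)
    (fun β f f' => wedgeW_add_left _ _ _ _)
    (fun r β f => wedgeW_smul_left _ _ _ _)
  have hinj : Function.Injective Bp.flip := by
    rw [injective_iff_map_eq_zero]
    intro f hf
    by_contra h0
    obtain ⟨β, hβ, hne⟩ := exists_dual E h hOm hE hcard e f.2 (fun h1 => h0 (Subtype.ext h1))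
    apply hne
    have h1 := congrArg (fun G => G ⟨β, hβ⟩) hf
    exact h1
  have hsurj : Function.Surjective Bp := LinearMap.flip_injective_iff₂.1 hinj
  let φ := finBasis ℚ (HH E D k)
  choose β hβ using fun i => hsurj (φ.coord i)
  have key : (Pi.single k (F k) : HAZ W v) = ∑ i, cross (φ i).1 (fibreIntegral e F (β i).1) := by
    have h1 : ∀ i, cross (φ i).1 (fibreIntegral e F (β i).1) = (Pi.single k
        ((LinearMap.toSpanSingleton ℚ (Fin v → ℚ)
          (fibreIntegral e F (β i).1)).compAlternatingMap (φ i).1) : HAZ W v) := fun i => rfl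
    rw [Finset.sum_congr rfl (fun i _ => h1 i)]
    have h2 : F k = ∑ i, (LinearMap.toSpanSingleton ℚ (Fin v → ℚ)
          (fibreIntegral e F (β i).1)).compAlternatingMap (φ i).1 := by
      refine AlternatingMap.ext fun w => ?_
      funext b
      have h3 : ∀ i, φ.coord i ⟨cmp b (F k), hF b⟩ = fibreIntegral e F (β i).1 b := by
        intro i
        rw [← hβ i, fibreIntegral_apply]
        rfl
      have h4 := φ.sum_repr ⟨cmp b (F k), hF b⟩
      have h5 := congrArg (fun f : HH E D k => f.1 w) h4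
      have h6 : (F k w) b = (cmp b (F k)) w := rfl
      rw [h6]
      refine h5.symm.trans ?_
      let ev : (W [⋀^Fin k]→ₗ[ℚ] (Fin v → ℚ)) →ₗ[ℚ] ℚ :=
        { toFun := fun G => G w b
          map_add' := fun G G' => rfl
          map_smul' := fun r G => rfl }
      let ev' : HH E D k →ₗ[ℚ] ℚ :=
        { toFun := fun f => f.1 w
          map_add' := fun f f' => rfl
          map_smul' := fun r f => rfl }
      change ev' (∑ i, φ.repr ⟨cmp b (F k), hF b⟩ i • φ i) = ev _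
      rw [map_sum, map_sum]
      refine Finset.sum_congr rfl fun i _ => ?_
      rw [map_smul, smul_eq_mul]
      have h7 := h3 i
      rw [Basis.coord_apply] at h7
      rw [h7]
      change _ = (φ i).1 w * fibreIntegral e F (β i).1 b
      rw [mul_comm]
      rfl
    have h8 := congrArg (fun G => LinearMap.single ℚ
      (fun k : ℕ => W [⋀^Fin k]→ₗ[ℚ] (Fin v → ℚ)) k G) h2
    simp only [map_sum] at h8
    exact h8
  rw [key]
  exact Submodule.sum_mem _ fun i _ => hP _ (φ i).2 _ (β i).2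

end alg

section hodge

variable {n d : ℕ} {g : Fin n → ℕ} {U : Set (Fin d → ℂ)}
  {Z : ∀ i, (Fin d → ℂ) → Matrix (Fin (g i)) (Fin (g i)) ℂ} {t₀ : Fin d → ℂ} {v : ℕ}

/-- The Hodge classes of a variety. -/
def HY (V : Coh v) : Submodule ℚ (Fin v → ℚ) where
  carrier := {x | IsHodgeOn V x}
  zero_mem' := by
    change V.z *ᵥ cv 0 = 0
    have h1 : cv (0 : Fin v → ℚ) = 0 := by
      funext b
      simp [Pool.Agent.TH131.GHC.cv]
    rw [h1, mulVec_zero]
  add_mem' := by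
    intro x y hx hy
    change V.z *ᵥ cv (x + y) = 0
    have h1 : cv (x + y) = cv x + cv y := by
      funext b
      simp [Pool.Agent.TH131.GHC.cv]
    rw [h1, mulVec_add, show V.z *ᵥ cv x = 0 from hx, show V.z *ᵥ cv y = 0 from hy, add_zero]
  smul_mem' := by
    intro r x hx
    change V.z *ᵥ cv (r • x) = 0
    have h1 : cv (r • x) = (r : ℂ) • cv x := by
      funext b
      simp [Pool.Agent.TH131.GHC.cv]
    rw [h1, mulVec_smul, show V.z *ᵥ cv x = 0 from hx, smul_zero]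

theorem VeryGood.cmp_isH (h : VeryGood U Z t₀) (V : Coh v)
    {F : HAZ (∀ i, Fin (g i) ⊕ Fin (g i) → ℚ) v}
    (hF : ∀ t ∈ U, IsHodgeOnProduct (perProd (fun i => Z i t)) V F) (k : ℕ) (b : Fin v)
    {t : Fin d → ℂ} (ht : t ∈ U) :
    IsH (DZ (bigD ℂ (fun i => Z i t))) (cfE (EE g) (cmp b (F k))) := by
  have h1 := congrArg (sl b) (h.opD_zero' V hF k ht)
  rw [sl_opD, map_zero] at h1
  exact h1

theorem VeryGood.value_mem (h : VeryGood U Z t₀) (V : Coh v)
    {F : HAZ (∀ i, Fin (g i) ⊕ Fin (g i) → ℚ) v}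
    (hF : ∀ t ∈ U, IsHodgeOnProduct (perProd (fun i => Z i t)) V F) (k : ℕ)
    (w : Fin k → (∀ i, Fin (g i) ⊕ Fin (g i) → ℚ)) : F k w ∈ HY V := by
  have h1 := h.opW_zero V hF k
  have h2 : ∀ I : Fin k → Fin (NB g) ⊕ Fin (NB g), F k (fun l => EE g (I l)) ∈ HY V := by
    intro I
    change V.z *ᵥ cv (F k (fun l => EE g (I l))) = 0
    funext b
    have h3 := congrFun h1 (I, b)
    rw [opW_apply] at h3
    exact h3
  have h3 : F k w = ∑ I : Fin k → Fin (NB g) ⊕ Fin (NB g), (∏ l, aP g (w l) (I l)) •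
      F k (fun l => EE g (I l)) := by
    funext b
    have h4 := congrFun (expand1 (Z := Z) (t₀ := t₀) (h.pos t₀ h.mem) (cmp b (F k))) w
    have h5 : (cmp b (F k)) w = F k w b := rfl
    rw [← h5]
    refine h4.trans ?_
    rw [Frame.pf_apply, Finset.sum_apply]
    unfold evalF
    refine Finset.sum_congr rfl fun I _ => ?_
    rw [Pi.smul_apply, smul_eq_mul, mul_comm]
    rfl
  rw [h3]
  exact Submodule.sum_mem _ fun I _ => Submodule.smul_mem _ _ (h2 I)

end hodge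

section base

variable {n : ℕ} {g : Fin n → ℕ} {v : ℕ} {B : Type}
  {Z : ∀ i, B → Matrix (Fin (g i)) (Fin (g i)) ℂ} {Y : B → Coh v}

theorem hasType_congr {T : Type} [AddCommGroup T] [Module ℂ T] {V V' : Coh v} (h : V.z = V'.z)
    {m : ℤ} {Φ : HAZC T v} (hΦ : HasType V m Φ) : HasType V' m Φ := by
  intro k u
  rw [← h]
  exact hΦ k u

/-- A very general point on a leaf. -/
theorem exists_leaf (hmov : MovesRelative Z Y) (b : B) :
    ∃ (d : ℕ) (U : Set (Fin d → ℂ)) (φ : (Fin d → ℂ) → B) (t₀ t : Fin d → ℂ),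
      VeryGood U (fun i t => Z i (φ t)) t₀ ∧ t ∈ U ∧ φ t = b ∧
      ∀ t ∈ U, (Y (φ t)).z = (Y b).z := by
  obtain ⟨d, U, φ, hU, hc, ⟨t, ht, htb⟩, hY, hm⟩ := hmov b
  obtain ⟨t₀, h⟩ := exists_veryGood hU hc ⟨t, ht⟩ (fun i t => Z i (φ t)) hm
  exact ⟨d, U, φ, t₀, t, h, ht, htb, hY⟩

theorem cmp_isH (hmov : MovesRelative Z Y) {F : HAZ (∀ i, Fin (g i) ⊕ Fin (g i) → ℚ) v}
    (hF : ∀ b, IsHodgeOnProduct (perProd (fun i => Z i b)) (Y b) F) (k : ℕ) (x : Fin v) (b : B) :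
    IsH (DZ (bigD ℂ (fun i => Z i b))) (cfE (EE g) (cmp x (F k))) := by
  obtain ⟨d, U, φ, t₀, t, h, ht, rfl, hY⟩ := exists_leaf hmov b
  refine h.cmp_isH (Y (φ t)) (fun s hs => ?_) k x ht
  obtain ⟨Φ, h1, h2⟩ := hF (φ s)
  exact ⟨Φ, h1, hasType_congr (hY s hs) h2⟩

theorem value_mem (hmov : MovesRelative Z Y) {F : HAZ (∀ i, Fin (g i) ⊕ Fin (g i) → ℚ) v}
    (hF : ∀ b, IsHodgeOnProduct (perProd (fun i => Z i b)) (Y b) F) (k : ℕ)
    (w : Fin k → (∀ i, Fin (g i) ⊕ Fin (g i) → ℚ)) (b : B) : F k w ∈ HY (Y b) := by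
  obtain ⟨d, U, φ, t₀, t, h, ht, rfl, hY⟩ := exists_leaf hmov b
  refine h.value_mem (Y (φ t)) (fun s hs => ?_) k w
  obtain ⟨Φ, h1, h2⟩ := hF (φ s)
  exact ⟨Φ, h1, hasType_congr (hY s hs) h2⟩

theorem integral_mem (hmov : MovesRelative Z Y) {F : HAZ (∀ i, Fin (g i) ⊕ Fin (g i) → ℚ) v}
    (hF : ∀ b, IsHodgeOnProduct (perProd (fun i => Z i b)) (Y b) F) {k j : ℕ}
    (e : Basis (Fin k ⊕ Fin j) ℚ (∀ i, Fin (g i) ⊕ Fin (g i) → ℚ))
    (β : (∀ i, Fin (g i) ⊕ Fin (g i) → ℚ) [⋀^Fin j]→ₗ[ℚ] ℚ) (b : B) :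
    fibreIntegral e F β ∈ HY (Y b) := by
  unfold fibreIntegral
  refine Submodule.sum_mem _ fun σ _ => ?_
  have h1 : ∀ (z : ℤ) (x : Fin v → ℚ), x ∈ HY (Y b) → z • x ∈ HY (Y b) := fun z x hx =>
    zsmul_mem hx z
  exact h1 _ _ (Submodule.smul_mem _ _ (value_mem hmov hF k _ b))

/-- **The reproducing property.** -/
theorem mem_of_integrals [Nonempty B] (hmov : MovesRelative Z Y)
    {F : HAZ (∀ i, Fin (g i) ⊕ Fin (g i) → ℚ) v}
    (hF : ∀ b, IsHodgeOnProduct (perProd (fun i => Z i b)) (Y b) F)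
    {P : Submodule ℚ (HAZ (∀ i, Fin (g i) ⊕ Fin (g i) → ℚ) v)}
    (hP : ∀ (k j : ℕ) (e : Basis (Fin k ⊕ Fin j) ℚ (∀ i, Fin (g i) ⊕ Fin (g i) → ℚ))
      (f : (∀ i, Fin (g i) ⊕ Fin (g i) → ℚ) [⋀^Fin k]→ₗ[ℚ] ℚ)
      (β : (∀ i, Fin (g i) ⊕ Fin (g i) → ℚ) [⋀^Fin j]→ₗ[ℚ] ℚ),
      (∀ b, f ∈ divisorSpan (perProd (fun i => Z i b)) k) →
      (∀ b, β ∈ divisorSpan (perProd (fun i => Z i b)) j) →
        cross f (fibreIntegral e F β) ∈ P) : F ∈ P := by
  classical
  have hper : ∀ b, (∀ i, (Z i b)ᵀ = Z i b) ∧ ∀ i, (imM (Z i b)).PosDef := by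
    intro b
    obtain ⟨d, U, φ, t₀, t, h, ht, rfl, hY⟩ := exists_leaf hmov b
    exact ⟨h.symm t ht, h.pos t ht⟩
  have hspan : ∀ {k : ℕ} (f : (∀ i, Fin (g i) ⊕ Fin (g i) → ℚ) [⋀^Fin k]→ₗ[ℚ] ℚ),
      f ∈ HH (EE g) (fun b => DZ (bigD ℂ (fun i => Z i b))) k →
      ∀ b, f ∈ divisorSpan (perProd (fun i => Z i b)) k := by
    intro k f hf b
    obtain ⟨d, U, φ, t₀, t, h, ht, rfl, hY⟩ := exists_leaf hmov b
    exact h.mem_span (hf (φ t₀)) ht
  obtain ⟨N, hN⟩ : ∃ N, N = Fintype.card (Fin (NB g) ⊕ Fin (NB g)) := ⟨_, rfl⟩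
  have hdim : finrank ℚ (∀ i, Fin (g i) ⊕ Fin (g i) → ℚ) = N := by
    rw [hN]
    exact finrank_eq_card_basis (basisP g)
  have hbig : ∀ k, N < k → F k = 0 := by
    intro k hk
    refine AlternatingMap.ext fun w => ?_
    refine (F k).map_linearDependent w fun hw => ?_
    have h1 := hw.fintype_card_le_finrank
    rw [Fintype.card_fin, hdim] at h1
    omega
  have hsum : F = ∑ k ∈ Finset.range (N + 1),
      (Pi.single k (F k) : HAZ (∀ i, Fin (g i) ⊕ Fin (g i) → ℚ) v) := by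
    funext k
    rw [Finset.sum_apply]
    by_cases hk : k ∈ Finset.range (N + 1)
    · rw [Finset.sum_eq_single k]
      · rw [Pi.single_eq_same]
      · intro l _ hl
        exact Pi.single_eq_of_ne (Ne.symm hl) _
      · intro h0
        exact absurd hk h0
    · rw [Finset.sum_eq_zero]
      · refine hbig k ?_
        rw [Finset.mem_range] at hk
        omega
      · intro l hl
        refine Pi.single_eq_of_ne ?_ _
        rintro rfl
        exact hk hl
  rw [hsum]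
  refine Submodule.sum_mem _ fun k hk => ?_
  rw [Finset.mem_range] at hk
  have hkN : k + (N - k) = Fintype.card (Fin (NB g) ⊕ Fin (NB g)) := by omega
  have hq : Fintype.card (Fin (NB g) ⊕ Fin (NB g)) = Fintype.card (Fin k ⊕ Fin (N - k)) := by
    rw [Fintype.card_sum (α := Fin k), Fintype.card_fin, Fintype.card_fin, hkN]
  let e : Basis (Fin k ⊕ Fin (N - k)) ℚ (∀ i, Fin (g i) ⊕ Fin (g i) → ℚ) :=
    (basisP g).reindex (Fintype.equivOfCardEq hq)
  refine reproduce (X := B) (EE g)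
    (fun b => polOf (bigD_symm (hper b).1) (imM_bigD_posDef _ (hper b).2))
    (fun x y => (polOf_Om _ _).trans (polOf_Om _ _).symm) (fun {κ} _ _ f hf => cfE_inj f hf)
    hkN e F (fun x b => cmp_isH hmov hF k x b) fun f hf β hβ => ?_
  exact hP k _ e f β (hspan f hf) (hspan β hβ)

end base

section final

/-- **The variational Hodge conjecture** for the product of a fibre product of families of abelian
varieties which move relative to a family of varieties, and this family. -/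
theorem main {ι B : Type} [Nonempty B] {g : ι → ℕ}
    (Z : ∀ i, B → Matrix (Fin (g i)) (Fin (g i)) ℂ) {n : ℕ} (c : Fin n → ι) {v : ℕ}
    (Y : B → Coh v) (hmov : MovesRelative Z Y) :
    HodgeClassesAreProducts (fibreProduct Z c) Y ∧ VariationalFromY (fibreProduct Z c) Y := by
  have hmov' : MovesRelative (fun j => Z (c j)) Y := by
    intro b
    obtain ⟨d, U, φ, hU, hc, hb, hY, hm⟩ := hmov b
    exact ⟨d, U, φ, hU, hc, hb, hY, fun j => hm (c j)⟩
  refine ⟨fun F hF => ?_, fun C hC F hF b₀ hb₀ b => ?_⟩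
  · exact mem_of_integrals hmov' hF fun k j e f β hf hβ =>
      Submodule.subset_span ⟨k, f, _, hf, fun b => integral_mem hmov' hF e β b, rfl⟩
  · refine mem_of_integrals hmov' hF fun k j e f β hf hβ => ?_
    refine C.cross_mem b k f (hf b) _ ?_
    refine hC _ (fun b' => integral_mem hmov' hF e β b') b₀ ?_ b
    exact C.integral_mem b₀ F hb₀ k j e β (hβ b₀)

end final

end

end Pool.Agent.TH504.VY
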